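import Mathlib

/-!
Combinatorial core of a parametrised Borsuk-Ulam theorem (Fan cochains on the flags of a cubical grid).
A cell of the grid is a vector `z : ℕ → ℤ`; an odd coordinate is an open interval, an even coordinate is a point.
-/

namespace KZB

abbrev Cell := ℕ → ℤ

/-- the (mod 2) boundary operator, applied to a function on cells -/
def Bd (M : ℕ) (g : Cell → ZMod 2) (z : Cell) : ZMod 2 :=
  ∑ i ∈ Finset.range M, if Odd (z i) then
    g (Function.update z i (z i + 1)) + g (Function.update z i (z i - 1)) else 0

theorem two_zmod (a : ZMod 2) : a + a = 0 := CharTwo.add_self_eq_zero a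

theorem sum_symm_zero (s : Finset ℕ) (S : ℕ → ℕ → ZMod 2) (hs : ∀ i j, S i j = S j i)
    (hd : ∀ i, S i i = 0) : ∑ i ∈ s, ∑ j ∈ s, S i j = 0 := by
  classical
  induction s using Finset.induction_on with
  | empty => simp
  | insert a s ha ih =>
    rw [Finset.sum_insert ha]
    have h1 : ∑ i ∈ s, ∑ j ∈ insert a s, S i j = ∑ i ∈ s, S i a + ∑ i ∈ s, ∑ j ∈ s, S i j := by
      rw [← Finset.sum_add_distrib]
      exact Finset.sum_congr rfl (fun i _ => Finset.sum_insert ha)
    rw [h1, Finset.sum_insert ha, hd, ih, zero_add, add_zero]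
    have h2 : ∑ i ∈ s, S i a = ∑ j ∈ s, S a j := Finset.sum_congr rfl (fun i _ => hs i a)
    rw [h2]; exact two_zmod _

theorem Bd_add (M : ℕ) (g h : Cell → ZMod 2) (z : Cell) :
    Bd M (fun y => g y + h y) z = Bd M g z + Bd M h z := by
  unfold Bd
  rw [← Finset.sum_add_distrib]
  refine Finset.sum_congr rfl (fun i _ => ?_)
  split_ifs
  · ring
  · simp

theorem Bd_const (M : ℕ) (c : ZMod 2) (z : Cell) : Bd M (fun _ => c) z = 0 := by
  unfold Bd
  refine Finset.sum_eq_zero (fun i _ => ?_)
  split_ifs
  · exact two_zmod _
  · rfl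

theorem Bd_congr (M : ℕ) (g h : Cell → ZMod 2) (z : Cell)
    (H : ∀ i, Odd (z i) → g (Function.update z i (z i + 1)) = h (Function.update z i (z i + 1)) ∧
      g (Function.update z i (z i - 1)) = h (Function.update z i (z i - 1))) :
    Bd M g z = Bd M h z := by
  unfold Bd
  refine Finset.sum_congr rfl (fun i _ => ?_)
  split_ifs with ho
  · rw [(H i ho).1, (H i ho).2]
  · rfl

theorem Bd_Bd (M : ℕ) (g : Cell → ZMod 2) (z : Cell) : Bd M (Bd M g) z = 0 := by
  set T : ℕ → ℕ → ZMod 2 := fun i j => if i = j then 0 else
    if Odd (z i) ∧ Odd (z j) then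
      g (Function.update (Function.update z i (z i + 1)) j (z j + 1)) +
      g (Function.update (Function.update z i (z i + 1)) j (z j - 1)) +
      g (Function.update (Function.update z i (z i - 1)) j (z j + 1)) +
      g (Function.update (Function.update z i (z i - 1)) j (z j - 1)) else 0 with hT
  have h0 : ∑ i ∈ Finset.range M, ∑ j ∈ Finset.range M, T i j = 0 := by
    refine sum_symm_zero _ _ (fun i j => ?_) (fun i => by simp [hT])
    by_cases hij : i = j
    · subst hij; rfl
    · simp only [hT, if_neg hij, if_neg (Ne.symm hij)]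
      rw [Function.update_comm hij, Function.update_comm hij, Function.update_comm hij,
        Function.update_comm hij]
      by_cases ho : Odd (z i) ∧ Odd (z j)
      · rw [if_pos ho, if_pos ⟨ho.2, ho.1⟩]; ring
      · rw [if_neg ho, if_neg (fun h => ho ⟨h.2, h.1⟩)]
  rw [← h0]
  unfold Bd
  refine Finset.sum_congr rfl (fun i _ => ?_)
  split_ifs with ho
  · rw [← Finset.sum_add_distrib]
    refine Finset.sum_congr rfl (fun j _ => ?_)
    by_cases hij : i = j
    · subst hij
      have e1 : ¬ Odd (z i + 1) := by
        rw [Int.not_odd_iff_even]; exact Odd.add_one ho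
      have e2 : ¬ Odd (z i - 1) := by
        rw [Int.not_odd_iff_even]; exact Odd.sub_odd ho odd_one
      simp [hT, Function.update_self, e1, e2]
    · have hji : j ≠ i := Ne.symm hij
      simp only [Function.update_of_ne hji, hT, if_neg hij]
      by_cases hj : Odd (z j)
      · simp only [hj, ho, and_self, if_true]; ring
      · simp [hj]
  · symm
    refine Finset.sum_eq_zero (fun j _ => ?_)
    by_cases hij : i = j
    · simp [hT, hij]
    · simp [hT, ho]

/-- `Le y z`: `y` is a face of `z` -/
def Le (y z : Cell) : Prop := ∀ i, y i = z i ∨ (Odd (z i) ∧ (y i = z i + 1 ∨ y i = z i - 1))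

theorem Le.refl (z : Cell) : Le z z := fun _ => Or.inl rfl

theorem Le.trans {x y z : Cell} (h1 : Le x y) (h2 : Le y z) : Le x z := by
  intro i
  rcases h2 i with h | ⟨ho, h⟩
  · rcases h1 i with h' | h'
    · left; rw [h', h]
    · right; rw [h] at h'; exact h'
  · rcases h1 i with h' | ⟨ho', _⟩
    · right; rw [h']; exact ⟨ho, h⟩
    · exfalso
      rcases h with h | h
      · rw [h] at ho'
        exact (Int.not_odd_iff_even.2 (Odd.add_one ho)) ho'
      · rw [h] at ho'
        exact (Int.not_odd_iff_even.2 (Odd.sub_odd ho odd_one)) ho'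

theorem Le.update_add {z : Cell} {i : ℕ} (ho : Odd (z i)) : Le (Function.update z i (z i + 1)) z := by
  intro j
  by_cases h : j = i
  · subst h; right; simp [ho]
  · left; rw [Function.update_of_ne h]

theorem Le.update_sub {z : Cell} {i : ℕ} (ho : Odd (z i)) : Le (Function.update z i (z i - 1)) z := by
  intro j
  by_cases h : j = i
  · subst h; right; simp [ho]
  · left; rw [Function.update_of_ne h]

abbrev SV := ℕ → Option Bool

def nil : SV := fun _ => none

/-- insertion of the label `l` -/
def ins (l : ℕ × Bool) (φ : SV → ZMod 2) (f : SV) : ZMod 2 :=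
  if f l.1 = none then φ (Function.update f l.1 (some l.2)) else 0

/-- sum over the flags `z_0 < ... < z_d = z` of `φ` of the set of labels -/
def Pair (M : ℕ) (lam : Cell → ℕ × Bool) : ℕ → Cell → (SV → ZMod 2) → ZMod 2
  | 0, z, φ => ins (lam z) φ nil
  | (d + 1), z, φ => Bd M (fun y => Pair M lam d y (ins (lam z) φ)) z

/-- coboundary of a cochain on sign vectors -/
def del (K : ℕ) (φ : SV → ZMod 2) (f : SV) : ZMod 2 :=
  ∑ j ∈ Finset.range K, if f j = none then 0 else φ (Function.update f j none)

theorem ins_add (l : ℕ × Bool) (φ ψ : SV → ZMod 2) :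
    ins l (fun f => φ f + ψ f) = fun f => ins l φ f + ins l ψ f := by
  funext f; unfold ins; split_ifs <;> simp

theorem Pair_add (M : ℕ) (lam : Cell → ℕ × Bool) (d : ℕ) : ∀ (z : Cell) (φ ψ : SV → ZMod 2),
    Pair M lam d z (fun f => φ f + ψ f) = Pair M lam d z φ + Pair M lam d z ψ := by
  induction d with
  | zero => intro z φ ψ; simp only [Pair, ins_add]
  | succ d ih =>
    intro z φ ψ
    simp only [Pair, ins_add]
    rw [← Bd_add]
    congr 1
    funext y
    exact ih y _ _

/-- the sign vectors seen by `Pair d z` -/
def Reach (lam : Cell → ℕ × Bool) (d : ℕ) (z : Cell) (f : SV) : Prop :=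
  (∃ S : Finset ℕ, S.card = d + 1 ∧ ∀ i, f i ≠ none ↔ i ∈ S) ∧
    ∀ i b, f i = some b → ∃ w, Le w z ∧ lam w = (i, b)

theorem reach_step {lam : Cell → ℕ × Bool} {d : ℕ} {y z : Cell} (hyz : Le y z) {f : SV}
    (hf : Reach lam d y f) (hn : f (lam z).1 = none) :
    Reach lam (d + 1) z (Function.update f (lam z).1 (some (lam z).2)) := by
  classical
  obtain ⟨⟨S, hS, hS'⟩, h2⟩ := hf
  refine ⟨⟨insert (lam z).1 S, ?_, ?_⟩, ?_⟩
  · rw [Finset.card_insert_of_notMem, hS]
    intro hmem
    exact ((hS' _).2 hmem) hn
  · intro i
    by_cases h : i = (lam z).1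
    · subst h; simp
    · rw [Function.update_of_ne h, Finset.mem_insert, hS' i]
      simp [h]
  · intro i b hb
    by_cases h : i = (lam z).1
    · subst h
      rw [Function.update_self] at hb
      refine ⟨z, Le.refl z, ?_⟩
      have : (lam z).2 = b := by simpa using hb
      rw [← this]
    · rw [Function.update_of_ne h] at hb
      obtain ⟨w, hw, hw'⟩ := h2 i b hb
      exact ⟨w, hw.trans hyz, hw'⟩

theorem reach_zero {lam : Cell → ℕ × Bool} (z : Cell) :
    Reach lam 0 z (Function.update nil (lam z).1 (some (lam z).2)) := by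
  classical
  refine ⟨⟨{(lam z).1}, by simp, ?_⟩, ?_⟩
  · intro i
    by_cases h : i = (lam z).1
    · subst h; simp
    · rw [Function.update_of_ne h]; simp [nil, h]
  · intro i b hb
    by_cases h : i = (lam z).1
    · subst h
      rw [Function.update_self] at hb
      refine ⟨z, Le.refl z, ?_⟩
      have : (lam z).2 = b := by simpa using hb
      rw [← this]
    · rw [Function.update_of_ne h] at hb
      simp [nil] at hb

theorem Pair_zero_of (M : ℕ) (lam : Cell → ℕ × Bool) (d : ℕ) : ∀ (z : Cell) (φ : SV → ZMod 2),
    (∀ f, Reach lam d z f → φ f = 0) → Pair M lam d z φ = 0 := by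
  induction d with
  | zero =>
    intro z φ h
    simp only [Pair, ins]
    split_ifs
    · exact h _ (reach_zero z)
    · rfl
  | succ d ih =>
    intro z φ h
    simp only [Pair]
    have key : ∀ y, Le y z → Pair M lam d y (ins (lam z) φ) = 0 := by
      intro y hy
      refine ih y _ (fun f hf => ?_)
      unfold ins
      split_ifs with hn
      · exact h _ (reach_step hy hf hn)
      · rfl
    rw [Bd_congr M _ (fun _ => 0) z]
    · exact Bd_const M 0 z
    · intro i ho
      exact ⟨key _ (Le.update_add ho), key _ (Le.update_sub ho)⟩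

theorem Pair_congr (M : ℕ) (lam : Cell → ℕ × Bool) (d : ℕ) (z : Cell) (φ ψ : SV → ZMod 2)
    (h : ∀ f, Reach lam d z f → φ f = ψ f) : Pair M lam d z φ = Pair M lam d z ψ := by
  have h1 : Pair M lam d z (fun f => φ f + ψ f) = 0 := by
    refine Pair_zero_of M lam d z _ (fun f hf => ?_)
    simp only [h f hf]; exact two_zmod _
  rw [Pair_add] at h1
  have := congrArg (· + Pair M lam d z ψ) h1
  simpa [add_assoc, two_zmod] using this

theorem ins_apply (l : ℕ × Bool) (φ : SV → ZMod 2) (f : SV) :
    ins l φ f = if f l.1 = none then φ (Function.update f l.1 (some l.2)) else 0 := rfl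

theorem ins_del (K : ℕ) (l : ℕ × Bool) (hl : l.1 < K) (φ : SV → ZMod 2) (f : SV) :
    ins l (del K φ) f = φ f + del K (ins l φ) f +
      (if f l.1 = some (!l.2) then φ f + φ (Function.update f l.1 (some l.2)) else 0) := by
  classical
  obtain ⟨j0, b0⟩ := l
  simp only at hl ⊢
  have hmem : j0 ∈ Finset.range K := Finset.mem_range.2 hl
  rw [ins_apply]
  simp only
  rcases hf : f j0 with _ | b
  · -- none
    simp only [if_true, reduceCtorEq, if_false, add_zero]
    unfold del
    rw [← Finset.add_sum_erase _ _ hmem, ← Finset.add_sum_erase _ _ hmem]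
    simp only [Function.update_self, hf, reduceCtorEq, if_false, if_true, zero_add]
    have e1 : Function.update (Function.update f j0 (some b0)) j0 none = f := by
      rw [Function.update_idem, ← hf, Function.update_eq_self]
    rw [e1]
    congr 1
    refine Finset.sum_congr rfl (fun j hj => ?_)
    have hne : j ≠ j0 := Finset.ne_of_mem_erase hj
    rw [Function.update_of_ne hne, ins_apply]
    simp only
    have h2 : Function.update f j none j0 = none := by
      rw [Function.update_of_ne hne.symm]; exact hf
    rw [if_pos h2, Function.update_comm hne.symm]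
  · simp only [reduceCtorEq, if_false]
    unfold del
    rw [← Finset.add_sum_erase _ _ hmem]
    have e0 : ∑ x ∈ (Finset.range K).erase j0, (if f x = none then (0 : ZMod 2) else
        ins (j0, b0) φ (Function.update f x none)) = 0 := by
      refine Finset.sum_eq_zero (fun j hj => ?_)
      have hne : j ≠ j0 := Finset.ne_of_mem_erase hj
      split_ifs with h1
      · rfl
      · rw [ins_apply]
        simp only
        rw [Function.update_of_ne hne.symm, hf, if_neg (by simp)]
    rw [e0, add_zero, ins_apply]
    simp only [hf, reduceCtorEq, if_false, Function.update_self, if_true, Function.update_idem]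
    by_cases hb : b = b0
    · subst hb
      have e1 : Function.update f j0 (some b) = f := by rw [← hf, Function.update_eq_self]
      rw [e1, if_neg (by simp)]
      simp [two_zmod]
    · have hb' : b = !b0 := by cases b <;> cases b0 <;> simp_all
      subst hb'
      rw [if_pos rfl]
      exact (two_zmod _).symm

/-- no complementary edge below `z` -/
def NC (lam : Cell → ℕ × Bool) (z : Cell) : Prop :=
  ∀ x y, Le x y → Le y z → (lam x).1 = (lam y).1 → (lam x).2 = (lam y).2

theorem NC.mono {lam : Cell → ℕ × Bool} {y z : Cell} (h : NC lam z) (hyz : Le y z) : NC lam y :=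
  fun x x' h1 h2 => h x x' h1 (h2.trans hyz)

theorem Pair_zero_nc (M : ℕ) (lam : Cell → ℕ × Bool) (d : ℕ) (y z : Cell) (φ : SV → ZMod 2)
    (hnc : NC lam z) (hyz : Le y z) :
    Pair M lam d y (fun f => if f (lam z).1 = some (!(lam z).2) then
      φ f + φ (Function.update f (lam z).1 (some (lam z).2)) else 0) = 0 := by
  refine Pair_zero_of M lam d y _ (fun f hf => ?_)
  split_ifs with h
  · exfalso
    obtain ⟨w, hw, hw'⟩ := hf.2 _ _ h
    have := hnc w z (hw.trans hyz) (Le.refl z) (by rw [hw'])
    rw [hw'] at this
    simp at this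
  · rfl

theorem Pair_del (M K : ℕ) (lam : Cell → ℕ × Bool) (d : ℕ) : ∀ (z : Cell) (φ : SV → ZMod 2),
    NC lam z → (∀ y, Le y z → (lam y).1 < K) →
    Pair M lam (d + 1) z (del K φ) = Bd M (fun y => Pair M lam d y φ) z := by
  induction d with
  | zero =>
    intro z φ hnc hK
    have e1 : ins (lam z) (del K φ) = fun f => φ f + del K (ins (lam z) φ) f +
      (if f (lam z).1 = some (!(lam z).2) then
        φ f + φ (Function.update f (lam z).1 (some (lam z).2)) else 0) := by
      funext f; exact ins_del K _ (hK z (Le.refl z)) φ f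
    have step : Pair M lam (0 + 1) z (del K φ) =
        Bd M (fun y => Pair M lam 0 y (ins (lam z) (del K φ))) z := rfl
    rw [step]
    have key : ∀ y, Le y z → Pair M lam 0 y (ins (lam z) (del K φ)) =
        Pair M lam 0 y φ + ins (lam z) φ nil := by
      intro y hy
      rw [e1, Pair_add M lam 0 y (fun f => φ f + del K (ins (lam z) φ) f), Pair_add,
        Pair_zero_nc M lam 0 y z φ hnc hy, add_zero]
      congr 1
      have h0 : Pair M lam 0 y (del K (ins (lam z) φ)) = ins (lam y) (del K (ins (lam z) φ)) nil := rfl
      rw [h0, ins_apply, if_pos (by rfl)]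
      unfold del
      rw [← Finset.add_sum_erase _ _ (Finset.mem_range.2 (hK y hy))]
      rw [Function.update_self, if_neg (by simp), Function.update_idem]
      have h1 : Function.update nil (lam y).1 none = nil := by
        have : nil (lam y).1 = none := rfl
        rw [← this, Function.update_eq_self]
      rw [h1]
      have h2 : ∑ x ∈ (Finset.range K).erase (lam y).1,
          (if Function.update nil (lam y).1 (some (lam y).2) x = none then (0 : ZMod 2) else
            ins (lam z) φ (Function.update (Function.update nil (lam y).1 (some (lam y).2)) x none)) = 0 := by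
        refine Finset.sum_eq_zero (fun j hj => ?_)
        rw [Function.update_of_ne (Finset.ne_of_mem_erase hj), if_pos (by rfl)]
      rw [h2, add_zero]
    rw [Bd_congr M _ (fun y => Pair M lam 0 y φ + ins (lam z) φ nil) z, Bd_add, Bd_const, add_zero]
    intro i ho
    exact ⟨key _ (Le.update_add ho), key _ (Le.update_sub ho)⟩
  | succ d ih =>
    intro z φ hnc hK
    have e1 : ins (lam z) (del K φ) = fun f => φ f + del K (ins (lam z) φ) f +
      (if f (lam z).1 = some (!(lam z).2) then
        φ f + φ (Function.update f (lam z).1 (some (lam z).2)) else 0) := by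
      funext f; exact ins_del K _ (hK z (Le.refl z)) φ f
    have step : Pair M lam (d + 1 + 1) z (del K φ) =
        Bd M (fun y => Pair M lam (d + 1) y (ins (lam z) (del K φ))) z := rfl
    rw [step]
    have key : ∀ y, Le y z → Pair M lam (d + 1) y (ins (lam z) (del K φ)) =
        Pair M lam (d + 1) y φ + Bd M (fun w => Pair M lam d w (ins (lam z) φ)) y := by
      intro y hy
      rw [e1, Pair_add M lam (d + 1) y (fun f => φ f + del K (ins (lam z) φ) f), Pair_add,
        Pair_zero_nc M lam (d + 1) y z φ hnc hy, add_zero]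
      congr 1
      exact ih y _ (hnc.mono hy) (fun w hw => hK w (hw.trans hy))
    rw [Bd_congr M _ (fun y => Pair M lam (d + 1) y φ +
      Bd M (fun w => Pair M lam d w (ins (lam z) φ)) y) z, Bd_add]
    · rw [Bd_Bd M (fun w => Pair M lam d w (ins (lam z) φ)), add_zero]
    · intro i ho
      exact ⟨key _ (Le.update_add ho), key _ (Le.update_sub ho)⟩

end KZB
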