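import Pool.Agent.KZB.Fan1

/-! The alternating cochain and its coboundary. -/

namespace KZB

/-- the word of signs at the positions `0, .., n-1` -/
def word : ℕ → (ℕ → Option Bool) → List Bool
  | 0, _ => []
  | (n + 1), g => (g 0).toList ++ word n (fun i => g (i + 1))

def alt : Bool → List Bool → ZMod 2
  | _, [] => 1
  | b, (a :: l) => if a = b then alt (!b) l else 0

theorem word_sum (n : ℕ) : ∀ (g : ℕ → Option Bool) (b : Bool),
    ∑ j ∈ Finset.range n, (if g j = none then 0 else alt b (word n (Function.update g j none))) =
      alt b (word n g) + alt (!b) (word n g) := by
  induction n with
  | zero => intro g b; simp only [Finset.range_zero, Finset.sum_empty, word, alt]; exact (two_zmod 1).symm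
  | succ n ih =>
    intro g b
    rw [Finset.sum_range_succ']
    have hw0 : word (n + 1) (Function.update g 0 none) = word n (fun i => g (i + 1)) := by
      simp [word, Function.update_of_ne]
    have hws : ∀ j, word (n + 1) (Function.update g (j + 1) none) =
        (g 0).toList ++ word n (Function.update (fun i => g (i + 1)) j none) := by
      intro j
      simp only [word]
      congr 2
      funext i
      by_cases h : i = j
      · subst h; simp
      · rw [Function.update_of_ne (by omega), Function.update_of_ne h]
    rw [hw0]
    simp only [hws]
    rcases hg : g 0 with _ | a
    · simp only [if_true, add_zero, Option.toList_none, List.nil_append]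
      rw [ih (fun i => g (i + 1)) b]
      simp [word, hg]
    · simp only [reduceCtorEq, if_false, Option.toList_some, List.singleton_append, alt]
      have hw : word (n + 1) g = a :: word n (fun i => g (i + 1)) := by simp [word, hg]
      rw [hw]
      simp only [alt]
      by_cases hab : a = b
      · subst hab
        simp only [if_true]
        have := ih (fun i => g (i + 1)) (!a)
        rw [this, Bool.not_not]
        have h1 : (if a = !a then alt (!!a) (word n fun i => g (i + 1)) else 0) = 0 := by
          rw [if_neg]; cases a <;> simp
        rw [Bool.not_not] at h1
        rw [h1, add_zero, add_assoc, two_zmod, add_zero]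
      · have hab' : a = !b := by cases a <;> cases b <;> simp_all
        subst hab'
        simp only [Bool.not_not, if_true]
        have h1 : (!b) ≠ b := by cases b <;> simp
        simp [h1]

/-- all labels `0, .., m-1` are present with sign `true` -/
def full (m : ℕ) (f : SV) : Prop := ∀ i < m, f i = some true

/-- the Fan cochain -/
noncomputable def fan (m n : ℕ) (f : SV) : ZMod 2 :=
  open Classical in
  if full m f then alt true (word n (fun j => f (m + j))) else 0

/-- the involution on sign vectors -/
def nuS (m : ℕ) (f : SV) : SV := fun i => if i < m then f i else (f i).map not

theorem word_not (n : ℕ) : ∀ g : ℕ → Option Bool,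
    word n (fun i => (g i).map not) = (word n g).map not := by
  induction n with
  | zero => intro g; rfl
  | succ n ih =>
    intro g
    simp only [word, List.map_append]
    rw [ih (fun i => g (i + 1))]
    congr 1
    rcases g 0 with _ | a <;> simp

theorem alt_not (l : List Bool) : ∀ b, alt b (l.map not) = alt (!b) l := by
  induction l with
  | nil => intro b; rfl
  | cons a l ih =>
    intro b
    simp only [List.map_cons, alt]
    by_cases h : (!a) = b
    · subst h; simp only [if_true, Bool.not_not]; rw [ih]
    · have h' : a = b := by cases a <;> cases b <;> simp_all
      subst h'
      rw [if_neg h, if_neg]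
      cases a <;> simp

theorem fan_nu (m n : ℕ) (f : SV) :
    fan m n (nuS m f) = (open Classical in if full m f then alt false (word n (fun j => f (m + j))) else 0) := by
  classical
  unfold fan
  have h1 : full m (nuS m f) ↔ full m f := by
    unfold full nuS
    constructor
    · intro h i hi; have := h i hi; rwa [if_pos hi] at this
    · intro h i hi; simp only [if_pos hi]; exact h i hi
  have h2 : (fun j => nuS m f (m + j)) = fun j => (f (m + j)).map not := by
    funext j; unfold nuS; rw [if_neg (by omega)]
  rw [h2, word_not, alt_not]
  by_cases h : full m f
  · rw [if_pos (h1.2 h), if_pos h]; rfl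
  · rw [if_neg (fun h' => h (h1.1 h')), if_neg h]

theorem del_fan (m n : ℕ) (f : SV) : del (m + n) (fan m n) f = fan m n f + fan m n (nuS m f) := by
  classical
  rw [fan_nu]
  unfold del
  rw [Finset.sum_range_add]
  have h0 : ∑ x ∈ Finset.range m, (if f x = none then 0 else fan m n (Function.update f x none)) = 0 := by
    refine Finset.sum_eq_zero (fun j hj => ?_)
    split_ifs with h
    · rfl
    · unfold fan
      rw [if_neg]
      intro hf
      have := hf j (Finset.mem_range.1 hj)
      rw [Function.update_self] at this
      cases this
  rw [h0, zero_add]
  by_cases hfull : full m f
  · have hu : ∀ j, full m (Function.update f (m + j) none) := by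
      intro j i hi
      rw [Function.update_of_ne (by omega)]; exact hfull i hi
    have hs : ∀ j, (fun i => Function.update f (m + j) none (m + i)) =
        Function.update (fun i => f (m + i)) j none := by
      intro j; funext i
      by_cases h : i = j
      · subst h; simp
      · rw [Function.update_of_ne h, Function.update_of_ne (by omega)]
    simp only [fan, if_pos (hu _), hs, if_pos hfull]
    exact word_sum n (fun i => f (m + i)) true
  · have hu : ∀ j, ¬ full m (Function.update f (m + j) none) := by
      intro j h
      apply hfull
      intro i hi
      have := h i hi
      rwa [Function.update_of_ne (by omega)] at this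
    simp only [fan, if_neg (hu _), if_neg hfull, ite_self, Finset.sum_const_zero, add_zero]

end KZB
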