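import Pool.Agent.KZB.Fan1

/-! Chains of the grid as operators on functions of cells. -/

namespace KZB

/-- sum over the odd values `2 s + 1 + c`, `s < L`, of the coordinate `i` -/
def seg (c : ℤ) (L : ℕ) (i : ℕ) (g : Cell → ZMod 2) (z : Cell) : ZMod 2 :=
  ∑ s ∈ Finset.range L, g (Function.update z i (2 * (s : ℤ) + 1 + c))

def pt (t : ℤ) (i : ℕ) (g : Cell → ZMod 2) (z : Cell) : ZMod 2 := g (Function.update z i t)

theorem tele (h : ℕ → ZMod 2) (L : ℕ) :
    ∑ s ∈ Finset.range L, (h (s + 1) + h s) = h L + h 0 := by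
  induction L with
  | zero => simp [two_zmod]
  | succ L ih =>
    rw [Finset.sum_range_succ, ih]
    have : h L + h 0 + (h (L + 1) + h L) = (h L + h L) + (h (L + 1) + h 0) := by ring
    rw [this, two_zmod, zero_add]

theorem Bd_erase (M i : ℕ) (hi : i < M) (g : Cell → ZMod 2) (z : Cell) :
    Bd M g z = (if Odd (z i) then
      g (Function.update z i (z i + 1)) + g (Function.update z i (z i - 1)) else 0) +
      ∑ j ∈ (Finset.range M).erase i, (if Odd (z j) then
        g (Function.update z j (z j + 1)) + g (Function.update z j (z j - 1)) else 0) := by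
  unfold Bd
  exact (Finset.add_sum_erase _ _ (Finset.mem_range.2 hi)).symm

theorem pt_Bd (M i : ℕ) (t : ℤ) (ht : Even t) (g : Cell → ZMod 2) (z : Cell)
    (hz : Even (z i)) : pt t i (Bd M g) z = Bd M (pt t i g) z := by
  unfold pt Bd
  refine Finset.sum_congr rfl (fun j _ => ?_)
  by_cases h : j = i
  · subst h
    rw [Function.update_self, if_neg (Int.not_odd_iff_even.2 ht), if_neg (Int.not_odd_iff_even.2 hz)]
  · simp only [Function.update_of_ne h]
    rw [Function.update_comm (Ne.symm h), Function.update_comm (Ne.symm h)]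

theorem seg_Bd (M i : ℕ) (hi : i < M) (c : ℤ) (hc : Even c) (L : ℕ) (g : Cell → ZMod 2) (z : Cell)
    (hz : Even (z i)) :
    seg c L i (Bd M g) z = Bd M (seg c L i g) z + pt (2 * L + c) i g z + pt c i g z := by
  have hodd : ∀ s : ℕ, Odd (2 * (s : ℤ) + 1 + c) := by
    intro s
    have : Odd (2 * (s : ℤ) + 1) := ⟨s, rfl⟩
    exact this.add_even hc
  rw [Bd_erase M i hi (seg c L i g) z, if_neg (Int.not_odd_iff_even.2 hz), zero_add]
  unfold seg
  have h1 : ∀ s ∈ Finset.range L, Bd M g (Function.update z i (2 * (s : ℤ) + 1 + c)) =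
      (g (Function.update z i (2 * ((s + 1 : ℕ) : ℤ) + c)) + g (Function.update z i (2 * ((s : ℕ) : ℤ) + c))) +
      ∑ j ∈ (Finset.range M).erase i, (if Odd (z j) then
        g (Function.update (Function.update z j (z j + 1)) i (2 * (s : ℤ) + 1 + c)) +
        g (Function.update (Function.update z j (z j - 1)) i (2 * (s : ℤ) + 1 + c)) else 0) := by
    intro s _
    rw [Bd_erase M i hi]
    rw [Function.update_self, if_pos (hodd s), Function.update_idem, Function.update_idem]
    congr 1
    · congr 3
      · push_cast; ring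
      · ring
    · refine Finset.sum_congr rfl (fun j hj => ?_)
      have hne : j ≠ i := Finset.ne_of_mem_erase hj
      rw [Function.update_of_ne hne, Function.update_comm hne.symm, Function.update_comm hne.symm]
  rw [Finset.sum_congr rfl h1, Finset.sum_add_distrib,
    tele (fun s => g (Function.update z i (2 * (s : ℤ) + c))) L, Finset.sum_comm]
  have h2 : ∀ j ∈ (Finset.range M).erase i, (∑ s ∈ Finset.range L, (if Odd (z j) then
        g (Function.update (Function.update z j (z j + 1)) i (2 * (s : ℤ) + 1 + c)) +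
        g (Function.update (Function.update z j (z j - 1)) i (2 * (s : ℤ) + 1 + c)) else 0)) =
      (if Odd (z j) then
        (∑ s ∈ Finset.range L, g (Function.update (Function.update z j (z j + 1)) i (2 * (s : ℤ) + 1 + c))) +
        ∑ s ∈ Finset.range L, g (Function.update (Function.update z j (z j - 1)) i (2 * (s : ℤ) + 1 + c))
        else 0) := by
    intro j _
    split_ifs
    · rw [Finset.sum_add_distrib]
    · simp
  rw [Finset.sum_congr rfl h2]
  unfold pt
  simp only [Nat.cast_zero, mul_zero, zero_add]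
  ring

variable (N : ℕ)

/-- the cube in the coordinates `a, .., a+k-1` -/
def D (a : ℕ) : ℕ → (Cell → ZMod 2) → Cell → ZMod 2
  | 0, g => g
  | (k + 1), g => D a k (seg (-(2 * N)) (2 * N) (a + k) g)

/-- the boundary of the cube in the coordinates `a, .., a+k-1` -/
def Sph (a : ℕ) : ℕ → (Cell → ZMod 2) → Cell → ZMod 2
  | 0, _ => fun _ => 0
  | (k + 1), g => fun z => D N a k (fun w => pt (2 * N) (a + k) g w + pt (-(2 * N)) (a + k) g w) z +
      Sph a k (seg (-(2 * N)) (2 * N) (a + k) g) z

/-- the upper hemisphere of the boundary of the cube in the coordinates `a, .., a+k` -/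
def Hem (a k : ℕ) (g : Cell → ZMod 2) (z : Cell) : ZMod 2 :=
  D N a k (pt (2 * N) (a + k) g) z + Sph N a k (seg 0 N (a + k) g) z

theorem D_add (a : ℕ) (k : ℕ) : ∀ (g h : Cell → ZMod 2) (z : Cell),
    D N a k (fun w => g w + h w) z = D N a k g z + D N a k h z := by
  induction k with
  | zero => intro g h z; rfl
  | succ k ih =>
    intro g h z
    simp only [D]
    rw [← ih]
    congr 1
    funext w
    simp only [seg, Finset.sum_add_distrib]

theorem Sph_add (a : ℕ) (k : ℕ) : ∀ (g h : Cell → ZMod 2) (z : Cell),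
    Sph N a k (fun w => g w + h w) z = Sph N a k g z + Sph N a k h z := by
  induction k with
  | zero => intro g h z; simp [Sph]
  | succ k ih =>
    intro g h z
    simp only [Sph]
    have e1 : seg (-(2 * N)) (2 * N) (a + k) (fun w => g w + h w) =
        fun w => seg (-(2 * N)) (2 * N) (a + k) g w + seg (-(2 * N)) (2 * N) (a + k) h w := by
      funext w; simp only [seg, Finset.sum_add_distrib]
    rw [e1, ih]
    have e2 : (fun w => pt (2 * N) (a + k) (fun w => g w + h w) w + pt (-(2 * N)) (a + k) (fun w => g w + h w) w) =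
        fun w => (pt (2 * N) (a + k) g w + pt (-(2 * N)) (a + k) g w) +
          (pt (2 * N) (a + k) h w + pt (-(2 * N)) (a + k) h w) := by
      funext w; simp only [pt]; ring
    rw [e2, D_add]
    ring

/-- the cells of `D a k` at `z` -/
def InD (a k : ℕ) (z w : Cell) : Prop :=
  (∀ i, (i < a ∨ a + k ≤ i) → w i = z i) ∧
    (∀ i, a ≤ i → i < a + k → -(2 * (N : ℤ)) < w i ∧ w i < 2 * N ∧ Odd (w i))

theorem seg_full_mem (s : ℕ) (hs : s < 2 * N) :
    -(2 * (N : ℤ)) < 2 * (s : ℤ) + 1 + -(2 * N) ∧ 2 * (s : ℤ) + 1 + -(2 * N) < 2 * N ∧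
      Odd (2 * (s : ℤ) + 1 + -(2 * N)) := by
  refine ⟨by omega, by omega, ?_⟩
  have : Odd (2 * (s : ℤ) + 1) := ⟨s, rfl⟩
  exact this.add_even (even_two_mul _).neg

theorem D_congr (a : ℕ) (k : ℕ) : ∀ (g h : Cell → ZMod 2) (z : Cell),
    (∀ w, InD N a k z w → g w = h w) → D N a k g z = D N a k h z := by
  induction k with
  | zero =>
    intro g h z H
    exact H z ⟨fun _ _ => rfl, fun i h1 h2 => absurd h2 (by omega)⟩
  | succ k ih =>
    intro g h z H
    simp only [D]
    refine ih _ _ z (fun w hw => ?_)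
    unfold seg
    refine Finset.sum_congr rfl (fun s hs => ?_)
    apply H
    refine ⟨fun i hi => ?_, fun i h1 h2 => ?_⟩
    · have hne : i ≠ a + k := by omega
      rw [Function.update_of_ne hne]
      exact hw.1 i (by omega)
    · by_cases h : i = a + k
      · subst h; rw [Function.update_self]; exact seg_full_mem N s (Finset.mem_range.1 hs)
      · rw [Function.update_of_ne h]; exact hw.2 i h1 (by omega)

/-- the cells of `Sph a k` at `z` -/
def InS (a k : ℕ) (z w : Cell) : Prop :=
  (∀ i, (i < a ∨ a + k ≤ i) → w i = z i) ∧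
    (∀ i, a ≤ i → i < a + k → -(2 * (N : ℤ)) ≤ w i ∧ w i ≤ 2 * N) ∧
    ∃ i, a ≤ i ∧ i < a + k ∧ (w i = 2 * N ∨ w i = -(2 * (N : ℤ)))

theorem Sph_congr (a : ℕ) (k : ℕ) : ∀ (g h : Cell → ZMod 2) (z : Cell),
    (∀ w, InS N a k z w → g w = h w) → Sph N a k g z = Sph N a k h z := by
  induction k with
  | zero => intro g h z _; rfl
  | succ k ih =>
    intro g h z H
    simp only [Sph]
    congr 1
    · refine D_congr N a k _ _ z (fun w hw => ?_)
      have key : ∀ t : ℤ, (t = 2 * N ∨ t = -(2 * (N : ℤ))) → InS N a (k + 1) z (Function.update w (a + k) t) := by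
        intro t ht
        refine ⟨fun i hi => ?_, fun i h1 h2 => ?_, a + k, by omega, by omega, ?_⟩
        · rw [Function.update_of_ne (by omega)]; exact hw.1 i (by omega)
        · by_cases h : i = a + k
          · subst h; rw [Function.update_self]; omega
          · rw [Function.update_of_ne h]
            have := hw.2 i h1 (by omega); omega
        · rw [Function.update_self]; exact ht
      simp only [pt]
      rw [H _ (key _ (Or.inl rfl)), H _ (key _ (Or.inr rfl))]
    · refine ih _ _ z (fun w hw => ?_)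
      unfold seg
      refine Finset.sum_congr rfl (fun s hs => ?_)
      apply H
      obtain ⟨h1, h2, i0, h3, h4, h5⟩ := hw
      refine ⟨fun i hi => ?_, fun i hi1 hi2 => ?_, i0, h3, by omega, ?_⟩
      · rw [Function.update_of_ne (by omega)]; exact h1 i (by omega)
      · by_cases h : i = a + k
        · subst h; rw [Function.update_self]
          have := seg_full_mem N s (Finset.mem_range.1 hs); omega
        · rw [Function.update_of_ne h]; exact h2 i hi1 (by omega)
      · rw [Function.update_of_ne (by omega)]; exact h5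

theorem Hem_congr (a k : ℕ) (g h : Cell → ZMod 2) (z : Cell)
    (H : ∀ w, InS N a (k + 1) z w → g w = h w) : Hem N a k g z = Hem N a k h z := by
  unfold Hem
  congr 1
  · refine D_congr N a k _ _ z (fun w hw => ?_)
    apply H
    refine ⟨fun i hi => ?_, fun i h1 h2 => ?_, a + k, by omega, by omega, ?_⟩
    · rw [Function.update_of_ne (by omega)]; exact hw.1 i (by omega)
    · by_cases h : i = a + k
      · subst h; rw [Function.update_self]; omega
      · rw [Function.update_of_ne h]
        have := hw.2 i h1 (by omega); omega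
    · rw [Function.update_self]; left; rfl
  · refine Sph_congr N a k _ _ z (fun w hw => ?_)
    unfold seg
    refine Finset.sum_congr rfl (fun s hs => ?_)
    apply H
    obtain ⟨h1, h2, i0, h3, h4, h5⟩ := hw
    have hs' := Finset.mem_range.1 hs
    refine ⟨fun i hi => ?_, fun i hi1 hi2 => ?_, i0, h3, by omega, ?_⟩
    · rw [Function.update_of_ne (by omega)]; exact h1 i (by omega)
    · by_cases h : i = a + k
      · subst h; rw [Function.update_self]; omega
      · rw [Function.update_of_ne h]; exact h2 i hi1 (by omega)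
    · rw [Function.update_of_ne (by omega)]; exact h5

/-- Leibniz rule for the cube -/
theorem D_Bd (M a : ℕ) (k : ℕ) : ∀ (g : Cell → ZMod 2) (z : Cell), a + k ≤ M →
    (∀ i, a ≤ i → i < a + k → Even (z i)) →
    D N a k (Bd M g) z = Bd M (D N a k g) z + Sph N a k g z := by
  induction k with
  | zero => intro g z _ _; simp [D, Sph]
  | succ k ih =>
    intro g z hM hz
    have hN : Even (-(2 * (N : ℤ))) := (even_two_mul _).neg
    simp only [D, Sph]
    rw [D_congr N a k (seg (-(2 * N)) (2 * N) (a + k) (Bd M g))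
      (fun w => Bd M (seg (-(2 * N)) (2 * N) (a + k) g) w +
        (pt (2 * N) (a + k) g w + pt (-(2 * N)) (a + k) g w)) z, D_add, ih _ z (by omega)
        (fun i h1 h2 => hz i h1 (by omega))]
    · ring
    · intro w hw
      have hwe : Even (w (a + k)) := by
        rw [hw.1 (a + k) (by omega)]; exact hz _ (by omega) (by omega)
      rw [seg_Bd M (a + k) (by omega) _ hN _ g w hwe]
      have : (2 * ((2 * N : ℕ) : ℤ) + -(2 * (N : ℤ))) = 2 * N := by push_cast; ring
      rw [this, add_assoc]

theorem Sph_Bd (M a : ℕ) (k : ℕ) : ∀ (g : Cell → ZMod 2) (z : Cell), a + k ≤ M →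
    (∀ i, a ≤ i → i < a + k → Even (z i)) →
    Sph N a k (Bd M g) z = Bd M (Sph N a k g) z := by
  induction k with
  | zero => intro g z _ _; simp only [Sph]; exact (Bd_const M 0 z).symm
  | succ k ih =>
    intro g z hM hz
    have hN : Even (-(2 * (N : ℤ))) := (even_two_mul _).neg
    have hN' : Even (2 * (N : ℤ)) := even_two_mul _
    have hS : Sph N a (k + 1) g = fun z => D N a k (fun w => pt (2 * N) (a + k) g w + pt (-(2 * N)) (a + k) g w) z +
      Sph N a k (seg (-(2 * N)) (2 * N) (a + k) g) z := rfl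
    rw [hS, Bd_add]
    simp only [Sph]
    rw [D_congr N a k (fun w => pt (2 * N) (a + k) (Bd M g) w + pt (-(2 * N)) (a + k) (Bd M g) w)
      (Bd M (fun w => pt (2 * N) (a + k) g w + pt (-(2 * N)) (a + k) g w)) z,
      D_Bd N M a k _ z (by omega) (fun i h1 h2 => hz i h1 (by omega)),
      Sph_congr N a k (seg (-(2 * N)) (2 * N) (a + k) (Bd M g))
      (fun w => Bd M (seg (-(2 * N)) (2 * N) (a + k) g) w +
        (pt (2 * N) (a + k) g w + pt (-(2 * N)) (a + k) g w)) z,
      Sph_add N a k (Bd M (seg (-(2 * N)) (2 * N) (a + k) g))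
        (fun w => pt (2 * N) (a + k) g w + pt (-(2 * N)) (a + k) g w) z,
      ih _ z (by omega) (fun i h1 h2 => hz i h1 (by omega))]
    · have h2 := two_zmod (Sph N a k (fun w => pt (2 * ↑N) (a + k) g w + pt (-(2 * ↑N)) (a + k) g w) z)
      generalize Sph N a k (fun w => pt (2 * ↑N) (a + k) g w + pt (-(2 * ↑N)) (a + k) g w) z = x at h2 ⊢
      generalize Bd M (D N a k fun w => pt (2 * ↑N) (a + k) g w + pt (-(2 * ↑N)) (a + k) g w) z = y
      generalize Bd M (Sph N a k (seg (-(2 * ↑N)) (2 * N) (a + k) g)) z = u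
      have : y + x + (u + x) = y + u + (x + x) := by ring
      rw [this, h2, add_zero]
    · intro w hw
      have hwe : Even (w (a + k)) := by
        rw [hw.1 (a + k) (by omega)]; exact hz _ (by omega) (by omega)
      rw [seg_Bd M (a + k) (by omega) _ hN _ g w hwe]
      have : (2 * ((2 * N : ℕ) : ℤ) + -(2 * (N : ℤ))) = 2 * N := by push_cast; ring
      rw [this, add_assoc]
    · intro w hw
      have hwe : Even (w (a + k)) := by
        rw [hw.1 (a + k) (by omega)]; exact hz _ (by omega) (by omega)
      rw [pt_Bd M (a + k) _ hN' g w hwe, pt_Bd M (a + k) _ hN g w hwe, ← Bd_add]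

theorem Hem_Bd (M a k : ℕ) (g : Cell → ZMod 2) (z : Cell) (hM : a + k + 1 ≤ M)
    (hz : ∀ i, a ≤ i → i < a + k → Even (z i)) (hz0 : z (a + k) = 0) :
    Hem N a k (Bd M g) z = Bd M (Hem N a k g) z + Sph N a k g z := by
  have hN' : Even (2 * (N : ℤ)) := even_two_mul _
  have hH : Hem N a k g = fun z => D N a k (pt (2 * N) (a + k) g) z + Sph N a k (seg 0 N (a + k) g) z := rfl
  rw [hH, Bd_add]
  unfold Hem
  rw [D_congr N a k (pt (2 * N) (a + k) (Bd M g)) (Bd M (pt (2 * N) (a + k) g)) z,
    D_Bd N M a k _ z (by omega) hz,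
    Sph_congr N a k (seg 0 N (a + k) (Bd M g))
      (fun w => Bd M (seg 0 N (a + k) g) w + (pt (2 * N) (a + k) g w + g w)) z, Sph_add, Sph_add,
    Sph_Bd N M a k _ z (by omega) hz]
  · have h2 := two_zmod (Sph N a k (pt (2 * ↑N) (a + k) g) z)
    generalize Sph N a k (pt (2 * ↑N) (a + k) g) z = x at h2 ⊢
    generalize Bd M (D N a k (pt (2 * ↑N) (a + k) g)) z = y
    generalize Bd M (Sph N a k (seg 0 N (a + k) g)) z = u
    generalize Sph N a k g z = v
    have : y + x + (u + (x + v)) = y + u + v + (x + x) := by ring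
    rw [this, h2, add_zero]
  · intro w hw
    have hw0 : w (a + k) = 0 := by rw [hw.1 (a + k) (by omega)]; exact hz0
    have hwe : Even (w (a + k)) := by rw [hw0]; exact Even.zero
    rw [seg_Bd M (a + k) (by omega) 0 Even.zero N g w hwe, add_zero, add_assoc]
    congr 2
    unfold pt
    rw [← hw0, Function.update_eq_self]
  · intro w hw
    have hwe : Even (w (a + k)) := by
      rw [hw.1 (a + k) (by omega), hz0]; exact Even.zero
    rw [pt_Bd M (a + k) _ hN' g w hwe]

end KZB
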