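import Pool.Agent.KZB.Fan2
import Pool.Agent.KZB.Fan3

/-! Symmetry, and the recursion over the dimension of the sphere. -/

namespace KZB

/-- the involution on cells: it fixes the first `m` coordinates and negates the others -/
def nuC (m : ℕ) (z : Cell) : Cell := fun i => if i < m then z i else - z i

theorem nuC_update_ge {m i : ℕ} (h : m ≤ i) (z : Cell) (t : ℤ) :
    nuC m (Function.update z i t) = Function.update (nuC m z) i (-t) := by
  funext j
  by_cases hj : j = i
  · subst hj; simp [nuC, Nat.not_lt.2 h]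
  · simp [nuC, Function.update_of_ne hj]

theorem nuC_update_lt {m i : ℕ} (h : i < m) (z : Cell) (t : ℤ) :
    nuC m (Function.update z i t) = Function.update (nuC m z) i t := by
  funext j
  by_cases hj : j = i
  · subst hj; simp [nuC, h]
  · simp [nuC, Function.update_of_ne hj]

theorem nuC_apply_ge {m i : ℕ} (h : m ≤ i) (z : Cell) : nuC m z i = - z i := by
  simp [nuC, Nat.not_lt.2 h]

theorem nuC_apply_lt {m i : ℕ} (h : i < m) (z : Cell) : nuC m z i = z i := by
  simp [nuC, h]

theorem Bd_nu (M m : ℕ) (g : Cell → ZMod 2) (z : Cell) :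
    Bd M g (nuC m z) = Bd M (fun y => g (nuC m y)) z := by
  unfold Bd
  refine Finset.sum_congr rfl (fun i _ => ?_)
  by_cases hi : i < m
  · rw [nuC_apply_lt hi]
    simp only [nuC_update_lt hi]
  · have hi' : m ≤ i := Nat.not_lt.1 hi
    rw [nuC_apply_ge hi']
    have hodd : Odd (-z i) ↔ Odd (z i) := by
      constructor
      · intro h; have := h.neg; rwa [neg_neg] at this
      · intro h; exact h.neg
    simp only [nuC_update_ge hi', hodd]
    have e1 : -(z i + 1) = -z i - 1 := by ring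
    have e2 : -(z i - 1) = -z i + 1 := by ring
    rw [e1, e2]
    split_ifs
    · rw [add_comm]
    · rfl

variable (N : ℕ)

theorem seg_nu {m i : ℕ} (h : m ≤ i) (g : Cell → ZMod 2) (w : Cell) :
    seg (-(2 * N)) (2 * N) i (fun y => g (nuC m y)) w = seg (-(2 * N)) (2 * N) i g (nuC m w) := by
  unfold seg
  rw [← Finset.sum_range_reflect (fun s => g (Function.update (nuC m w) i (2 * (s : ℤ) + 1 + -(2 * ↑N))))]
  refine Finset.sum_congr rfl (fun s hs => ?_)
  have hs' := Finset.mem_range.1 hs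
  simp only [nuC_update_ge h]
  congr 2
  have : ((2 * N - 1 - s : ℕ) : ℤ) = 2 * N - 1 - s := by omega
  rw [this]; ring

theorem pt_nu {m i : ℕ} (h : m ≤ i) (t : ℤ) (g : Cell → ZMod 2) (w : Cell) :
    pt t i (fun y => g (nuC m y)) w = pt (-t) i g (nuC m w) := by
  unfold pt; simp only [nuC_update_ge h]

theorem D_nu (m k : ℕ) : ∀ (g : Cell → ZMod 2) (z : Cell),
    D N m k (fun y => g (nuC m y)) z = D N m k g (nuC m z) := by
  induction k with
  | zero => intro g z; rfl
  | succ k ih =>
    intro g z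
    simp only [D]
    rw [← ih]
    congr 1
    funext w
    exact seg_nu N (by omega) g w

theorem Sph_nu (m k : ℕ) : ∀ (g : Cell → ZMod 2) (z : Cell),
    Sph N m k (fun y => g (nuC m y)) z = Sph N m k g (nuC m z) := by
  induction k with
  | zero => intro g z; rfl
  | succ k ih =>
    intro g z
    simp only [Sph]
    rw [← ih, ← D_nu]
    congr 1
    · congr 1
      funext w
      rw [pt_nu (by omega), pt_nu (by omega), neg_neg, add_comm]
    · congr 1
      funext w
      exact seg_nu N (by omega) g w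

theorem seg_split (i : ℕ) (g : Cell → ZMod 2) (w : Cell) :
    seg (-(2 * N)) (2 * N) i g w = seg 0 N i g w +
      ∑ s ∈ Finset.range N, g (Function.update w i (-(2 * (s : ℤ) + 1))) := by
  unfold seg
  have e : 2 * N = N + N := by ring
  rw [e, Finset.sum_range_add, add_comm]
  congr 1
  · refine Finset.sum_congr rfl (fun s _ => ?_)
    congr 2; push_cast; ring
  · rw [← Finset.sum_range_reflect]
    refine Finset.sum_congr rfl (fun s hs => ?_)
    have hs' := Finset.mem_range.1 hs
    congr 2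
    have : ((N - 1 - s : ℕ) : ℤ) = N - 1 - s := by omega
    rw [this]; ring

theorem Sph_succ_eq (m k : ℕ) (g : Cell → ZMod 2) (z : Cell) (hz : nuC m z = z) :
    Sph N m (k + 1) g z = Hem N m k g z + Hem N m k (fun y => g (nuC m y)) z := by
  simp only [Sph, Hem]
  rw [D_add]
  have e1 : D N m k (pt (2 * N) (m + k) fun y => g (nuC m y)) z = D N m k (pt (-(2 * N)) (m + k) g) z := by
    have : (pt (2 * N) (m + k) fun y => g (nuC m y)) = fun w => pt (-(2 * N)) (m + k) g (nuC m w) := by
      funext w; exact pt_nu (by omega) _ g w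
    rw [this, D_nu, hz]
  have e2 : Sph N m k (seg 0 N (m + k) fun y => g (nuC m y)) z =
      Sph N m k (fun w => ∑ s ∈ Finset.range N, g (Function.update w (m + k) (-(2 * (s : ℤ) + 1)))) z := by
    have : (seg 0 N (m + k) fun y => g (nuC m y)) = fun w =>
        (fun w => ∑ s ∈ Finset.range N, g (Function.update w (m + k) (-(2 * (s : ℤ) + 1)))) (nuC m w) := by
      funext w
      simp only [seg]
      refine Finset.sum_congr rfl (fun s _ => ?_)
      rw [nuC_update_ge (by omega), add_zero]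
    rw [this, Sph_nu N m k (fun w => ∑ s ∈ Finset.range N, g (Function.update w (m + k) (-(2 * (s : ℤ) + 1)))), hz]
  have e3 : Sph N m k (seg (-(2 * N)) (2 * N) (m + k) g) z = Sph N m k (seg 0 N (m + k) g) z +
      Sph N m k (fun w => ∑ s ∈ Finset.range N, g (Function.update w (m + k) (-(2 * (s : ℤ) + 1)))) z := by
    rw [← Sph_add]
    congr 1
    funext w; exact seg_split N (m + k) g w
  rw [e1, e2, e3]
  ring

/-- the domain: cells of the cube (first `m` coordinates) times the boundary of the cube (next `n+1`) -/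
def Dom (m n : ℕ) (z : Cell) : Prop :=
  (∀ i, -(2 * (N : ℤ)) ≤ z i ∧ z i ≤ 2 * N) ∧
  (∃ i, m ≤ i ∧ i < m + n + 1 ∧ (z i = 2 * N ∨ z i = -(2 * (N : ℤ)))) ∧ (∀ i, m + n + 1 ≤ i → z i = 0)

variable {N}

theorem Le.even_eq {y z : Cell} (h : Le y z) {i : ℕ} (hi : Even (z i)) : y i = z i := by
  rcases h i with h | ⟨ho, _⟩
  · exact h
  · exact absurd ho (Int.not_odd_iff_even.2 hi)

theorem Dom.le {m n : ℕ} {y z : Cell} (hz : Dom N m n z) (h : Le y z) : Dom N m n y := by
  obtain ⟨h1, ⟨i, hi1, hi2, hi3⟩, h3⟩ := hz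
  refine ⟨fun j => ?_, ⟨i, hi1, hi2, ?_⟩, fun j hj => ?_⟩
  · rcases h j with h' | ⟨ho, h'⟩
    · rw [h']; exact h1 j
    · obtain ⟨a, ha⟩ := ho
      have := h1 j
      rcases h' with h' | h' <;> omega
  · have he : Even (z i) := by
      rcases hi3 with h' | h' <;> rw [h']
      · exact even_two_mul _
      · exact (even_two_mul _).neg
    rw [h.even_eq he]; exact hi3
  · have he : Even (z j) := by rw [h3 j hj]; exact Even.zero
    rw [h.even_eq he]; exact h3 j hj

variable (N)

/-- the chains `D^m × (hemisphere of dimension k)` -/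
def T (m k : ℕ) (g : Cell → ZMod 2) : ZMod 2 := D N 0 m (Hem N m k g) 0

theorem T_congr (m n k : ℕ) (hk : k ≤ n) (g h : Cell → ZMod 2) (H : ∀ w, Dom N m n w → g w = h w) :
    T N m k g = T N m k h := by
  unfold T
  refine D_congr N 0 m _ _ 0 (fun w hw => Hem_congr N m k g h w (fun w' hw' => H w' ?_))
  obtain ⟨h1, h2, i, hi1, hi2, hi3⟩ := hw'
  refine ⟨fun j => ?_, ⟨i, hi1, by omega, hi3⟩, fun j hj => ?_⟩
  · by_cases hj : j < m
    · rw [h1 j (Or.inl hj)]
      have := hw.2 j (by omega) (by omega)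
      omega
    · by_cases hj' : j < m + (k + 1)
      · exact h2 j (by omega) hj'
      · rw [h1 j (Or.inr (by omega)), hw.1 j (Or.inr (by omega))]
        simp
  · rw [h1 j (Or.inr (by omega)), hw.1 j (Or.inr (by omega))]; rfl

theorem bdry_congr (m n k : ℕ) (hk : k ≤ n) (g h : Cell → ZMod 2)
    (H : ∀ w, Dom N m n w → (∃ i < m, w i = 2 * N ∨ w i = -(2 * (N : ℤ))) → g w = h w) :
    Sph N 0 m (Hem N m k g) 0 = Sph N 0 m (Hem N m k h) 0 := by
  refine Sph_congr N 0 m _ _ 0 (fun w hw => Hem_congr N m k g h w (fun w' hw' => H w' ?_ ?_))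
  · obtain ⟨h1, h2, i, hi1, hi2, hi3⟩ := hw'
    refine ⟨fun j => ?_, ⟨i, hi1, by omega, hi3⟩, fun j hj => ?_⟩
    · by_cases hj : j < m
      · rw [h1 j (Or.inl hj)]
        exact hw.2.1 j (by omega) (by omega)
      · by_cases hj' : j < m + (k + 1)
        · exact h2 j (by omega) hj'
        · rw [h1 j (Or.inr (by omega)), hw.1 j (Or.inr (by omega))]
          simp
    · rw [h1 j (Or.inr (by omega)), hw.1 j (Or.inr (by omega))]; rfl
  · obtain ⟨_, _, i, hi1, hi2, hi3⟩ := hw
    refine ⟨i, by omega, ?_⟩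
    rw [hw'.1 i (Or.inl (by omega))]; exact hi3

theorem D_zero (a k : ℕ) (z : Cell) : D N a k (fun _ => 0) z = 0 := by
  have := D_add N a k (fun _ => 0) (fun _ => 0) z
  simp only [add_zero] at this
  have h2 := two_zmod (D N a k (fun _ => 0) z)
  rw [← this] at h2; exact h2

theorem Sph_zero (a k : ℕ) (z : Cell) : Sph N a k (fun _ => 0) z = 0 := by
  have := Sph_add N a k (fun _ => 0) (fun _ => 0) z
  simp only [add_zero] at this
  have h2 := two_zmod (Sph N a k (fun _ => 0) z)
  rw [← this] at h2; exact h2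

theorem Hem_zero (a k : ℕ) : Hem N a k (fun _ => 0) = fun _ => 0 := by
  funext z
  unfold Hem
  have e1 : pt (2 * (N : ℤ)) (a + k) (fun _ => (0 : ZMod 2)) = fun _ => 0 := rfl
  have e2 : seg 0 N (a + k) (fun _ => (0 : ZMod 2)) = fun _ => 0 := by funext w; simp [seg]
  rw [e1, e2, D_zero, Sph_zero, add_zero]

theorem bdry_zero (m n k : ℕ) (hk : k ≤ n) (g : Cell → ZMod 2)
    (H : ∀ w, Dom N m n w → (∃ i < m, w i = 2 * N ∨ w i = -(2 * (N : ℤ))) → g w = 0) :
    Sph N 0 m (Hem N m k g) 0 = 0 := by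
  rw [bdry_congr N m n k hk g (fun _ => 0) H, Hem_zero, Sph_zero]

theorem T_Bd (m n k : ℕ) (hk : k ≤ n) (g : Cell → ZMod 2) :
    T N m k (Bd (m + n + 1) g) = Sph N 0 m (Hem N m k g) 0 + D N 0 m (Sph N m k g) 0 := by
  unfold T
  rw [D_congr N 0 m (Hem N m k (Bd (m + n + 1) g)) (fun w => Bd (m + n + 1) (Hem N m k g) w + Sph N m k g w) 0,
    D_add, D_Bd N (m + n + 1) 0 m _ 0 (by omega) (fun i _ _ => Even.zero)]
  · have : Bd (m + n + 1) (D N 0 m (Hem N m k g)) 0 = 0 := by
      unfold Bd
      refine Finset.sum_eq_zero (fun i _ => ?_)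
      rw [if_neg]
      simp
    rw [this, zero_add]
  · intro w hw
    have hw0 : ∀ i, m ≤ i → w i = 0 := fun i hi => by rw [hw.1 i (Or.inr (by omega))]; rfl
    exact Hem_Bd N (m + n + 1) m k g w (by omega)
      (fun i h1 _ => by rw [hw0 i h1]; exact Even.zero) (hw0 _ (by omega))

theorem T_add (m k : ℕ) (g h : Cell → ZMod 2) :
    T N m k (fun w => g w + h w) = T N m k g + T N m k h := by
  unfold T
  rw [← D_add]
  congr 1
  funext z
  unfold Hem
  have e1 : pt (2 * (N : ℤ)) (m + k) (fun w => g w + h w) =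
    fun w => pt (2 * (N : ℤ)) (m + k) g w + pt (2 * (N : ℤ)) (m + k) h w := rfl
  have e2 : seg 0 N (m + k) (fun w => g w + h w) =
    fun w => seg 0 N (m + k) g w + seg 0 N (m + k) h w := by
      funext w; simp only [seg, Finset.sum_add_distrib]
  rw [e1, e2, D_add, Sph_add]; ring

theorem T_step (m k : ℕ) (g : Cell → ZMod 2) :
    D N 0 m (Sph N m (k + 1) g) 0 = T N m k (fun w => g w + g (nuC m w)) := by
  rw [T_add]
  unfold T
  rw [← D_add]
  refine D_congr N 0 m _ _ 0 (fun w hw => ?_)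
  apply Sph_succ_eq
  funext i
  by_cases hi : i < m
  · exact nuC_apply_lt hi w
  · rw [nuC_apply_ge (by omega), hw.1 i (Or.inr (by omega))]; rfl

end KZB
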