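import Pool.Agent.KZB.Fan4

/-! The combinatorial theorem: no labelling without complementary edge. -/

namespace KZB

/-- an admissible labelling of the cells of `Dom` -/
structure Lab (N m n : ℕ) (lam : Cell → ℕ × Bool) : Prop where
  lt : ∀ x, Dom N m n x → (lam x).1 < m + n
  nc : ∀ x y, Dom N m n x → Dom N m n y → Le x y → (lam x).1 = (lam y).1 → (lam x).2 = (lam y).2
  nu : ∀ x, Dom N m n x → lam (nuC m x) = ((lam x).1, if (lam x).1 < m then (lam x).2 else !(lam x).2)
  bd : ∀ x, Dom N m n x → ∀ i < m, (x i = 2 * N ∨ x i = -(2 * (N : ℤ))) →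
    (∀ j < i, x j ≠ 2 * N ∧ x j ≠ -(2 * (N : ℤ))) → lam x = (i, decide (x i = 2 * N))

variable {N m n : ℕ} {lam : Cell → ℕ × Bool}

theorem nuS_nil (m : ℕ) : nuS m nil = nil := by
  funext i; unfold nuS nil; split_ifs <;> rfl

theorem nuS_none (m : ℕ) (f : SV) (j : ℕ) : nuS m f j = none ↔ f j = none := by
  unfold nuS; split_ifs
  · rfl
  · simp

theorem nuS_update (m : ℕ) (f : SV) (j : ℕ) (b : Bool) :
    nuS m (Function.update f j (some b)) =
      Function.update (nuS m f) j (some (if j < m then b else !b)) := by
  funext i
  by_cases h : i = j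
  · subst h
    unfold nuS
    rw [Function.update_self, Function.update_self]
    split_ifs <;> simp
  · rw [Function.update_of_ne h]; unfold nuS; rw [Function.update_of_ne h]

theorem ins_nu (hl : Lab N m n lam) (z : Cell) (hz : Dom N m n z) (φ : SV → ZMod 2) (f : SV) :
    ins (lam (nuC m z)) φ (nuS m f) = ins (lam z) (fun f => φ (nuS m f)) f := by
  rw [ins_apply, ins_apply, hl.nu z hz]
  simp only [nuS_none]
  split_ifs with h1 h2
  · rw [nuS_update, if_pos h2]
  · rw [nuS_update, if_neg h2]
  · rfl

theorem Dom.nu {z : Cell} (hz : Dom N m n z) : Dom N m n (nuC m z) := by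
  obtain ⟨h1, ⟨i, hi1, hi2, hi3⟩, h3⟩ := hz
  refine ⟨fun j => ?_, ⟨i, hi1, hi2, ?_⟩, fun j hj => ?_⟩
  · have := h1 j
    by_cases hj : j < m
    · rw [nuC_apply_lt hj]; exact this
    · rw [nuC_apply_ge (by omega)]; omega
  · rw [nuC_apply_ge hi1]; omega
  · rw [nuC_apply_ge (by omega), h3 j hj]; rfl

theorem Pair_nu (hl : Lab N m n lam) (M d : ℕ) : ∀ (z : Cell), Dom N m n z → ∀ (φ : SV → ZMod 2),
    Pair M lam d (nuC m z) φ = Pair M lam d z (fun f => φ (nuS m f)) := by
  induction d with
  | zero =>
    intro z hz φ
    simp only [Pair]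
    rw [← ins_nu hl z hz, nuS_nil]
  | succ d ih =>
    intro z hz φ
    simp only [Pair]
    rw [Bd_nu]
    have e : ins (lam z) (fun f => φ (nuS m f)) = fun f => ins (lam (nuC m z)) φ (nuS m f) := by
      funext f; exact (ins_nu hl z hz φ f).symm
    rw [e]
    refine Bd_congr M _ _ z (fun i ho => ⟨?_, ?_⟩)
    · exact ih _ (hz.le (Le.update_add ho)) _
    · exact ih _ (hz.le (Le.update_sub ho)) _

/-- the number of Fan flags (of both signs) in the `k`-th hemisphere -/
noncomputable def P (N m n : ℕ) (lam : Cell → ℕ × Bool) (k : ℕ) : ZMod 2 :=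
  T N m k (fun z => Pair (m + n + 1) lam (m + k) z (fun f => fan m n f + fan m n (nuS m f)))

theorem lab_NC (hl : Lab N m n lam) {z : Cell} (hz : Dom N m n z) : NC lam z :=
  fun x y h1 h2 => hl.nc x y (hz.le (h1.trans h2)) (hz.le h2) h1

theorem P_eq (hl : Lab N m n lam) (hm : 0 < m) (k : ℕ) (hk : k ≤ n) :
    P N m n lam k = T N m k (Bd (m + n + 1) (fun y => Pair (m + n + 1) lam (m + k - 1) y (fan m n))) := by
  unfold P
  refine T_congr N m n k hk _ _ (fun w hw => ?_)
  have e : (fun f => fan m n f + fan m n (nuS m f)) = del (m + n) (fan m n) := by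
    funext f; exact (del_fan m n f).symm
  rw [e]
  obtain ⟨d, hd⟩ : ∃ d, m + k = d + 1 := ⟨m + k - 1, by omega⟩
  rw [hd]
  exact Pair_del (m + n + 1) (m + n) lam d w _ (lab_NC hl hw) (fun y hy => hl.lt y (hw.le hy))

theorem bdry_label (hl : Lab N m n lam) {w : Cell} (hw : Dom N m n w) {i : ℕ} (hi : i < m)
    (h : w i = 2 * N ∨ w i = -(2 * (N : ℤ))) :
    ∃ j ≤ i, (w j = 2 * N ∨ w j = -(2 * (N : ℤ))) ∧ lam w = (j, decide (w j = 2 * N)) := by
  classical
  have hex : ∃ j, (w j = 2 * N ∨ w j = -(2 * (N : ℤ))) := ⟨i, h⟩
  refine ⟨Nat.find hex, Nat.find_min' hex h, Nat.find_spec hex, ?_⟩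
  refine hl.bd w hw _ (lt_of_le_of_lt (Nat.find_min' hex h) hi) (Nat.find_spec hex) (fun j hj => ?_)
  have := Nat.find_min hex hj
  exact not_or.1 this

theorem face_bdry {w y : Cell} (h : Le y w) {i : ℕ} (hi : w i = 2 * N ∨ w i = -(2 * (N : ℤ))) :
    y i = w i := by
  apply h.even_eq
  rcases hi with h' | h' <;> rw [h']
  · exact even_two_mul _
  · exact (even_two_mul _).neg

theorem P_succ (hl : Lab N m n lam) (hm : 0 < m) (k : ℕ) (hk : k + 1 ≤ n) :
    P N m n lam (k + 1) = P N m n lam k := by
  rw [P_eq hl hm (k + 1) hk, T_Bd N m n (k + 1) hk, bdry_zero N m n (k + 1) hk, zero_add, T_step]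
  · unfold P
    refine T_congr N m n k (by omega) _ _ (fun w hw => ?_)
    have e : m + (k + 1) - 1 = m + k := by omega
    rw [e, Pair_nu hl _ _ w hw, Pair_add]
  · intro w hw ⟨i, hi, hi'⟩
    refine Pair_zero_of _ lam _ w _ (fun f hf => ?_)
    exfalso
    obtain ⟨⟨S, hS, hS'⟩, h2⟩ := hf
    have hsub : S ⊆ Finset.range m := by
      intro j hj
      have hj' := (hS' j).2 hj
      obtain ⟨b, hb⟩ := Option.ne_none_iff_exists'.1 hj'
      obtain ⟨w', hw', hw''⟩ := h2 j b hb
      have e1 := face_bdry hw' hi'
      obtain ⟨j', hj1, _, hj3⟩ := bdry_label hl (hw.le hw') hi (by rw [e1]; exact hi')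
      rw [hj3] at hw''
      have : j' = j := congrArg Prod.fst hw''
      rw [Finset.mem_range]; omega
    have := Finset.card_le_card hsub
    rw [hS, Finset.card_range] at this
    omega

theorem P_top (hl : Lab N m n lam) : P N m n lam n = 0 := by
  unfold P
  rw [T_congr N m n n le_rfl _ (fun _ => 0)]
  · unfold T; rw [Hem_zero, D_zero]
  · intro w hw
    refine Pair_zero_of _ lam _ w _ (fun f hf => ?_)
    exfalso
    obtain ⟨⟨S, hS, hS'⟩, h2⟩ := hf
    have hsub : S ⊆ Finset.range (m + n) := by
      intro j hj
      have hj' := (hS' j).2 hj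
      obtain ⟨b, hb⟩ := Option.ne_none_iff_exists'.1 hj'
      obtain ⟨w', hw', hw''⟩ := h2 j b hb
      have := hl.lt w' (hw.le hw')
      rw [hw''] at this
      exact Finset.mem_range.2 this
    have := Finset.card_le_card hsub
    rw [hS, Finset.card_range] at this
    omega

/-- indicator of the sign vector `+ ... +` on `0, .., k-1` -/
noncomputable def chi (k : ℕ) (f : SV) : ZMod 2 :=
  open Classical in if (∀ i < k, f i = some true) ∧ (∀ i, k ≤ i → f i = none) then 1 else 0

theorem ins_chi (k : ℕ) : ins (k, true) (chi (k + 1)) = chi k := by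
  classical
  funext f
  rw [ins_apply]
  unfold chi
  simp only
  by_cases h : f k = none
  · rw [if_pos h]
    by_cases h2 : (∀ i < k, f i = some true) ∧ (∀ i, k ≤ i → f i = none)
    · rw [if_pos h2, if_pos]
      refine ⟨fun i hi => ?_, fun i hi => ?_⟩
      · by_cases hik : i = k
        · subst hik; simp
        · rw [Function.update_of_ne hik]; exact h2.1 i (by omega)
      · rw [Function.update_of_ne (by omega)]; exact h2.2 i (by omega)
    · rw [if_neg h2, if_neg]
      intro h3
      apply h2
      refine ⟨fun i hi => ?_, fun i hi => ?_⟩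
      · have := h3.1 i (by omega)
        rwa [Function.update_of_ne (by omega)] at this
      · by_cases hik : i = k
        · subst hik; exact h
        · have := h3.2 i (by omega)
          rwa [Function.update_of_ne hik] at this
  · rw [if_neg h, if_neg]
    intro h2
    exact h (h2.2 k le_rfl)

theorem ins_chi_zero (j k : ℕ) (b : Bool) (h : k ≤ j) : ins (j, b) (chi k) = fun _ => 0 := by
  classical
  funext f
  rw [ins_apply]
  unfold chi
  simp only
  split_ifs with h1 h2
  · exfalso
    have := h2.2 j h
    rw [Function.update_self] at this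
    cases this
  · rfl
  · rfl

theorem Pair_ins_zero (M : ℕ) (lam : Cell → ℕ × Bool) (d : ℕ) (z : Cell) (φ : SV → ZMod 2)
    (h : ins (lam z) φ = fun _ => 0) : Pair M lam d z φ = 0 := by
  cases d with
  | zero => simp only [Pair, h]
  | succ d =>
    simp only [Pair, h]
    rw [Bd_congr M _ (fun _ => 0) z, Bd_const]
    intro i _
    exact ⟨Pair_zero_of M lam d _ _ (fun _ _ => rfl), Pair_zero_of M lam d _ _ (fun _ _ => rfl)⟩

theorem Pair_chi_low (hl : Lab N m n lam) (M d j i : ℕ) (b : Bool) (hij : i < j) (hi : i < m) {y : Cell}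
    (hy : Dom N m n y) (h : y i = 2 * N ∨ y i = -(2 * (N : ℤ))) (φ : SV → ZMod 2)
    (hφ : ∀ f, f j ≠ some b → φ f = 0) : Pair M lam d y φ = 0 := by
  refine Pair_zero_of _ lam _ y _ (fun f hf => ?_)
  by_contra hne
  have hfj : f j = some b := by
    by_contra h'; exact hne (hφ f h')
  obtain ⟨w', hw', hw''⟩ := hf.2 j _ hfj
  have e1 := face_bdry hw' h
  obtain ⟨j', hj1, _, hj3⟩ := bdry_label hl (hy.le hw') hi (by rw [e1]; exact h)
  rw [hj3] at hw''
  have : j' = j := congrArg Prod.fst hw''
  omega

theorem Pair_chi_neg (hN : 0 < N) (hl : Lab N m n lam) (M d j : ℕ) (hj : j < m) {y : Cell}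
    (hy : Dom N m n y) (h : y j = -(2 * (N : ℤ))) (φ : SV → ZMod 2)
    (hφ : ∀ f, f j ≠ some true → φ f = 0) : Pair M lam d y φ = 0 := by
  refine Pair_zero_of _ lam _ y _ (fun f hf => ?_)
  by_contra hne
  have hfj : f j = some true := by
    by_contra h'; exact hne (hφ f h')
  obtain ⟨w', hw', hw''⟩ := hf.2 j _ hfj
  have e1 := face_bdry hw' (Or.inr h)
  obtain ⟨j', hj1, hj2, hj3⟩ := bdry_label hl (hy.le hw') hj (by rw [e1]; exact Or.inr h)
  rw [hj3] at hw''
  have e2 : j' = j := congrArg Prod.fst hw''
  have e3 : decide (w' j' = 2 * (N : ℤ)) = true := congrArg Prod.snd hw''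
  rw [decide_eq_true_eq, e2, e1, h] at e3
  omega

theorem chi_ne (k : ℕ) (f : SV) (h : f k ≠ some true) : chi (k + 1) f = 0 := by
  classical
  unfold chi
  rw [if_neg]
  intro h2
  exact h (h2.1 k (by omega))

theorem E_base (hN : 0 < N) (hl : Lab N m n lam) (j : ℕ) : ∀ (w : Cell), j < m → Dom N m n w →
    (∀ i, j ≤ i → i < m → w i = 2 * N) → (∀ i < j, Odd (w i)) → (∀ i, m ≤ i → Even (w i)) →
    Pair (m + n + 1) lam j w (chi (j + 1)) =
      (open Classical in if ∀ i < j, w i = 2 * N - 1 then 1 else 0) := by
  classical
  induction j with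
  | zero =>
    intro w hj hw h1 h2 h3
    have hlam : lam w = (0, true) := by
      have := hl.bd w hw 0 hj (Or.inl (h1 0 le_rfl hj)) (fun i hi => absurd hi (by omega))
      rw [this, h1 0 le_rfl hj]; simp
    simp only [Pair]
    rw [hlam, ins_chi 0, if_pos (fun i hi => absurd hi (by omega))]
    unfold chi
    rw [if_pos]
    exact ⟨fun i hi => absurd hi (by omega), fun i _ => rfl⟩
  | succ j ih =>
    intro w hj hw h1 h2 h3
    have hlt : ∀ i < j + 1, -(2 * (N : ℤ)) < w i ∧ w i < 2 * N := by
      intro i hi
      have := hw.1 i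
      obtain ⟨a, ha⟩ := h2 i hi
      omega
    have hlam : lam w = (j + 1, true) := by
      have := hl.bd w hw (j + 1) hj (Or.inl (h1 _ le_rfl hj))
        (fun i hi => by have := hlt i hi; constructor <;> omega)
      rw [this, h1 _ le_rfl hj]; simp
    simp only [Pair]
    rw [hlam, ins_chi (j + 1), Bd_erase _ j (by omega), if_pos (h2 j (by omega))]
    have e0 : ∑ i ∈ (Finset.range (m + n + 1)).erase j, (if Odd (w i) then
        Pair (m + n + 1) lam j (Function.update w i (w i + 1)) (chi (j + 1)) +
        Pair (m + n + 1) lam j (Function.update w i (w i - 1)) (chi (j + 1)) else 0) = 0 := by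
      refine Finset.sum_eq_zero (fun i hi => ?_)
      have hij : i ≠ j := Finset.ne_of_mem_erase hi
      split_ifs with ho
      · have hi3 : i < j := by
          by_contra hcon
          by_cases him : m ≤ i
          · exact (Int.not_odd_iff_even.2 (h3 i him)) ho
          · have := h1 i (by omega) (by omega)
            rw [this] at ho
            exact (Int.not_odd_iff_even.2 (even_two_mul _)) ho
        have key : ∀ t : ℤ, Le (Function.update w i t) w →
            Pair (m + n + 1) lam j (Function.update w i t) (chi (j + 1)) = 0 := by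
          intro t hle
          by_cases ht : t = 2 * N ∨ t = -(2 * (N : ℤ))
          · exact Pair_chi_low hl _ _ j i true hi3 (by omega) (hw.le hle)
              (by rw [Function.update_self]; exact ht) _ (fun f hf => chi_ne j f hf)
          · apply Pair_ins_zero
            have hl2 : lam (Function.update w i t) = (j + 1, true) := by
              have hj1 : Function.update w i t (j + 1) = 2 * N := by
                rw [Function.update_of_ne (by omega)]; exact h1 _ le_rfl hj
              have := hl.bd _ (hw.le hle) (j + 1) hj (Or.inl hj1)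
                (fun i' hi' => by
                  by_cases hii : i' = i
                  · subst hii; rw [Function.update_self]; exact not_or.1 ht
                  · rw [Function.update_of_ne hii]
                    have := hlt i' hi'; constructor <;> omega)
              rw [this, hj1]; simp
            rw [hl2]
            exact ins_chi_zero _ _ _ le_rfl
        rw [key _ (Le.update_add ho), key _ (Le.update_sub ho), add_zero]
      · rfl
    rw [e0, add_zero]
    have hoj := h2 j (by omega)
    have hltj := hlt j (by omega)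
    -- the lower neighbour contributes nothing
    have hlow : Pair (m + n + 1) lam j (Function.update w j (w j - 1)) (chi (j + 1)) = 0 := by
      have hle := Le.update_sub (z := w) hoj
      by_cases ht : w j - 1 = -(2 * (N : ℤ))
      · exact Pair_chi_neg hN hl _ _ j (by omega) (hw.le hle) (by rw [Function.update_self]; exact ht) _
          (fun f hf => chi_ne j f hf)
      · apply Pair_ins_zero
        have hl2 : lam (Function.update w j (w j - 1)) = (j + 1, true) := by
          have hj1 : Function.update w j (w j - 1) (j + 1) = 2 * N := by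
            rw [Function.update_of_ne (by omega)]; exact h1 _ le_rfl hj
          have := hl.bd _ (hw.le hle) (j + 1) hj (Or.inl hj1)
            (fun i' hi' => by
              by_cases hii : i' = j
              · subst hii; rw [Function.update_self]; constructor <;> omega
              · rw [Function.update_of_ne hii]
                have := hlt i' hi'; constructor <;> omega)
          rw [this, hj1]; simp
        rw [hl2]
        exact ins_chi_zero _ _ _ le_rfl
    rw [hlow, add_zero]
    have hle := Le.update_add (z := w) hoj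
    by_cases ht : w j = 2 * N - 1
    · have hih := ih (Function.update w j (w j + 1)) (by omega) (hw.le hle)
        (fun i hi1 hi2 => by
          by_cases hii : i = j
          · subst hii; rw [Function.update_self]; omega
          · rw [Function.update_of_ne hii]; exact h1 i (by omega) hi2)
        (fun i hi => by rw [Function.update_of_ne (by omega)]; exact h2 i (by omega))
        (fun i hi => by rw [Function.update_of_ne (by omega)]; exact h3 i hi)
      rw [hih]
      by_cases hall : ∀ i < j, w i = 2 * N - 1
      · rw [if_pos, if_pos]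
        · intro i hi
          by_cases hii : i = j
          · subst hii; exact ht
          · exact hall i (by omega)
        · intro i hi
          rw [Function.update_of_ne (by omega)]; exact hall i hi
      · rw [if_neg, if_neg]
        · intro h; exact hall (fun i hi => h i (by omega))
        · intro h; apply hall
          intro i hi
          have := h i hi
          rwa [Function.update_of_ne (by omega)] at this
    · rw [if_neg (fun h => ht (h j (by omega)))]
      apply Pair_ins_zero
      have hl2 : lam (Function.update w j (w j + 1)) = (j + 1, true) := by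
        have hj1 : Function.update w j (w j + 1) (j + 1) = 2 * N := by
          rw [Function.update_of_ne (by omega)]; exact h1 _ le_rfl hj
        have := hl.bd _ (hw.le hle) (j + 1) hj (Or.inl hj1)
          (fun i' hi' => by
            by_cases hii : i' = j
            · subst hii; rw [Function.update_self]; constructor <;> omega
            · rw [Function.update_of_ne hii]
              have := hlt i' hi'; constructor <;> omega)
        rw [this, hj1]; simp
      rw [hl2]
      exact ins_chi_zero _ _ _ le_rfl

theorem D_top (hN : 0 < N) (k : ℕ) : ∀ z : Cell,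
    D N 0 k (fun w => (open Classical in if ∀ i < k, w i = 2 * (N : ℤ) - 1 then (1 : ZMod 2) else 0)) z = 1 := by
  classical
  induction k with
  | zero => intro z; simp [D]
  | succ k ih =>
    intro z
    simp only [D]
    refine Eq.trans ?_ (ih z)
    congr 1
    funext w
    unfold seg
    simp only
    rw [Finset.sum_eq_single (2 * N - 1)]
    · have e : (2 * ((2 * N - 1 : ℕ) : ℤ) + 1 + -(2 * N)) = 2 * N - 1 := by omega
      rw [e, zero_add]
      by_cases h : ∀ i < k, w i = 2 * (N : ℤ) - 1
      · rw [if_pos, if_pos h]
        intro i hi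
        by_cases hik : i = k
        · subst hik; simp
        · rw [Function.update_of_ne hik]; exact h i (by omega)
      · rw [if_neg, if_neg h]
        intro h2; apply h
        intro i hi
        have := h2 i (by omega)
        rwa [Function.update_of_ne (by omega)] at this
    · intro s hs hne
      rw [if_neg]
      intro h
      have := h k (by omega)
      rw [zero_add, Function.update_self] at this
      have hs' := Finset.mem_range.1 hs
      omega
    · intro h
      exfalso; apply h
      rw [Finset.mem_range]; omega

theorem fan_ne (m n : ℕ) (i : ℕ) (hi : i < m) (f : SV) (h : f i ≠ some true) : fan m n f = 0 := by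
  classical
  unfold fan
  rw [if_neg]
  intro h2; exact h (h2 i hi)

theorem word_none (n : ℕ) : ∀ g : ℕ → Option Bool, (∀ i, g i = none) → word n g = [] := by
  induction n with
  | zero => intro g _; rfl
  | succ n ih => intro g hg; simp [word, hg 0, ih _ (fun i => hg (i + 1))]

theorem P_zero (hN : 0 < N) (hl : Lab N m n lam) (hm : 0 < m) : P N m n lam 0 = 1 := by
  classical
  rw [P_eq hl hm 0 (Nat.zero_le _), T_Bd N m n 0 (Nat.zero_le _)]
  have e1 : Sph N m 0 (fun y => Pair (m + n + 1) lam (m + 0 - 1) y (fan m n)) = fun _ => 0 := rfl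
  rw [e1, D_zero, add_zero]
  obtain ⟨m', rfl⟩ : ∃ m', m = m' + 1 := ⟨m - 1, by omega⟩
  have e2 : m' + 1 + 0 - 1 = m' := by omega
  rw [e2]
  set G : Cell → ZMod 2 := fun y => Pair (m' + 1 + n + 1) lam m' y (fan (m' + 1) n) with hG
  have e3 : Hem N (m' + 1) 0 G = pt (2 * N) (m' + 1) G := by
    funext z
    simp [Hem, D, Sph]
  rw [e3]
  have e4 : Sph N 0 (m' + 1) (pt (2 * N) (m' + 1) G) 0 =
      D N 0 m' (fun w => pt (2 * N) (0 + m') (pt (2 * N) (m' + 1) G) w +
        pt (-(2 * N)) (0 + m') (pt (2 * N) (m' + 1) G) w) 0 +
      Sph N 0 m' (seg (-(2 * N)) (2 * N) (0 + m') (pt (2 * N) (m' + 1) G)) 0 := rfl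
  rw [e4, zero_add]
  have e5 : Sph N 0 m' (seg (-(2 * N)) (2 * N) m' (pt (2 * N) (m' + 1) G)) 0 = 0 := by
    rw [Sph_congr N 0 m' _ (fun _ => 0) 0, Sph_zero]
    intro w hw
    obtain ⟨h1, h2, i, hi1, hi2, hi3⟩ := hw
    unfold seg
    refine Finset.sum_eq_zero (fun s hs => ?_)
    have hs' := seg_full_mem N s (Finset.mem_range.1 hs)
    unfold pt
    refine Pair_chi_low hl _ _ m' i true (by omega) (by omega) ?_ ?_ _ (fun f hf => fan_ne _ _ m' (by omega) f hf)
    · refine ⟨fun j => ?_, ⟨m' + 1, le_rfl, by omega, ?_⟩, fun j hj => ?_⟩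
      · by_cases hj1 : j = m' + 1
        · subst hj1; rw [Function.update_self]; omega
        · rw [Function.update_of_ne hj1]
          by_cases hj2 : j = m'
          · subst hj2; rw [Function.update_self]; omega
          · rw [Function.update_of_ne hj2]
            by_cases hj3 : j < m'
            · exact h2 j (by omega) (by omega)
            · rw [h1 j (Or.inr (by omega))]; simp
      · rw [Function.update_self]; left; rfl
      · rw [Function.update_of_ne (by omega), Function.update_of_ne (by omega), h1 j (Or.inr (by omega))]; rfl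
    · rw [Function.update_of_ne (by omega), Function.update_of_ne (by omega)]; exact hi3
  rw [e5, add_zero]
  rw [← D_top hN m' 0]
  refine D_congr N 0 m' _ _ 0 (fun w hw => ?_)
  have hdom : ∀ t : ℤ, (t = 2 * N ∨ t = -(2 * (N : ℤ))) →
      Dom N (m' + 1) n (Function.update (Function.update w m' t) (m' + 1) (2 * N)) := by
    intro t ht
    refine ⟨fun j => ?_, ⟨m' + 1, le_rfl, by omega, ?_⟩, fun j hj => ?_⟩
    · by_cases hj1 : j = m' + 1
      · subst hj1; rw [Function.update_self]; omega
      · rw [Function.update_of_ne hj1]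
        by_cases hj2 : j = m'
        · subst hj2; rw [Function.update_self]; omega
        · rw [Function.update_of_ne hj2]
          by_cases hj3 : j < m'
          · have := hw.2 j (by omega) (by omega); omega
          · rw [hw.1 j (Or.inr (by omega))]; simp
    · rw [Function.update_self]; left; rfl
    · rw [Function.update_of_ne (by omega), Function.update_of_ne (by omega), hw.1 j (Or.inr (by omega))]; rfl
  have hneg : pt (-(2 * N)) m' (pt (2 * N) (m' + 1) G) w = 0 := by
    unfold pt
    refine Pair_chi_neg hN hl _ _ m' (by omega) (hdom _ (Or.inr rfl)) ?_ _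
      (fun f hf => fan_ne _ _ m' (by omega) f hf)
    rw [Function.update_of_ne (by omega), Function.update_self]
  rw [hneg, add_zero]
  unfold pt
  set w' := Function.update (Function.update w m' (2 * (N : ℤ))) (m' + 1) (2 * N) with hw'
  have hd' : Dom N (m' + 1) n w' := hdom _ (Or.inl rfl)
  have hbm : w' m' = 2 * N := by
    rw [hw', Function.update_of_ne (by omega), Function.update_self]
  have hG2 : G w' = Pair (m' + 1 + n + 1) lam m' w' (chi (m' + 1)) := by
    rw [hG]
    refine Pair_congr _ lam _ w' _ _ (fun f hf => ?_)
    obtain ⟨⟨S, hS, hS'⟩, h2⟩ := hf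
    have hsub : S ⊆ Finset.range (m' + 1) := by
      intro j hj
      have hj' := (hS' j).2 hj
      obtain ⟨b, hb⟩ := Option.ne_none_iff_exists'.1 hj'
      obtain ⟨y, hy, hy'⟩ := h2 j b hb
      have e1 := face_bdry hy (Or.inl hbm)
      obtain ⟨j', hj1, _, hj3⟩ := bdry_label hl (hd'.le hy) (i := m') (by omega) (by rw [e1]; exact Or.inl hbm)
      rw [hj3] at hy'
      have : j' = j := congrArg Prod.fst hy'
      rw [Finset.mem_range]; omega
    have hnone : ∀ i, m' + 1 ≤ i → f i = none := by
      intro i hi
      by_contra hcon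
      have := hsub ((hS' i).1 hcon)
      rw [Finset.mem_range] at this; omega
    unfold fan chi
    by_cases hf : full (m' + 1) f
    · rw [if_pos hf, if_pos ⟨hf, hnone⟩, word_none n _ (fun i => hnone _ (by omega))]
      rfl
    · rw [if_neg hf, if_neg (fun h => hf h.1)]
  rw [hG2, E_base hN hl m' w' (by omega) hd']
  · by_cases hall : ∀ i < m', w i = 2 * (N : ℤ) - 1
    · rw [if_pos, if_pos hall]
      intro i hi
      rw [hw', Function.update_of_ne (by omega), Function.update_of_ne (by omega)]; exact hall i hi
    · rw [if_neg, if_neg hall]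
      intro h; apply hall
      intro i hi
      have := h i hi
      rwa [hw', Function.update_of_ne (by omega), Function.update_of_ne (by omega)] at this
  · intro i hi1 hi2
    have : i = m' := by omega
    rw [this]; exact hbm
  · intro i hi
    rw [hw', Function.update_of_ne (by omega), Function.update_of_ne (by omega)]
    exact (hw.2 i (by omega) (by omega)).2.2
  · intro i hi
    by_cases h : i = m' + 1
    · subst h; rw [hw', Function.update_self]; exact even_two_mul _
    · rw [hw', Function.update_of_ne h, Function.update_of_ne (by omega), hw.1 i (Or.inr (by omega))]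
      exact Even.zero

/-- the combinatorial theorem -/
theorem no_labelling (hN : 0 < N) (hm : 0 < m) (lam : Cell → ℕ × Bool) (hl : Lab N m n lam) : False := by
  have h : ∀ k, k ≤ n → P N m n lam k = 1 := by
    intro k
    induction k with
    | zero => intro _; exact P_zero hN hl hm
    | succ k ih => intro hk; rw [P_succ hl hm k hk]; exact ih (by omega)
  have h1 := h n le_rfl
  rw [P_top hl] at h1
  exact zero_ne_one h1

end KZB
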