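import Pool.Agent.KZB.Fan5

/-!
Parametrised Borsuk-Ulam theorem (Poincaré-Miranda in the first `m` coordinates, Borsuk-Ulam in the others).
-/

namespace KZB

open Filter Topology

/-- the domain `[-1,1]^m × ∂[-1,1]^(n+1)` -/
def Del (m n : ℕ) : Set ((Fin m → ℝ) × (Fin (n + 1) → ℝ)) :=
  {x | (∀ i, |x.1 i| ≤ 1) ∧ ‖x.2‖ = 1}

theorem isCompact_Del (m n : ℕ) : IsCompact (Del m n) := by
  have h : Del m n = Metric.closedBall (0 : Fin m → ℝ) 1 ×ˢ Metric.sphere (0 : Fin (n + 1) → ℝ) 1 := by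
    ext x
    simp only [Del, Set.mem_setOf_eq, Set.mem_prod, mem_closedBall_zero_iff, mem_sphere_zero_iff_norm]
    rw [pi_norm_le_iff_of_nonneg zero_le_one]
    simp [Real.norm_eq_abs]
  rw [h]
  exact (isCompact_closedBall _ _).prod (isCompact_sphere _ _)

variable {m n : ℕ}

/-- all coordinates of the map as one vector -/
def Fv (A : (Fin m → ℝ) × (Fin (n + 1) → ℝ) → Fin m → ℝ)
    (B : (Fin m → ℝ) × (Fin (n + 1) → ℝ) → Fin n → ℝ)
    (x : (Fin m → ℝ) × (Fin (n + 1) → ℝ)) : Fin (m + n) → ℝ := Fin.append (A x) (B x)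

/-- the same, indexed by natural numbers -/
def cc (A : (Fin m → ℝ) × (Fin (n + 1) → ℝ) → Fin m → ℝ)
    (B : (Fin m → ℝ) × (Fin (n + 1) → ℝ) → Fin n → ℝ)
    (j : ℕ) (x : (Fin m → ℝ) × (Fin (n + 1) → ℝ)) : ℝ :=
  if h : j < m + n then Fv A B x ⟨j, h⟩ else 0

/-- the point of a cell -/
noncomputable def pnt (m n N : ℕ) (z : Cell) : (Fin m → ℝ) × (Fin (n + 1) → ℝ) :=
  (fun i => (z i : ℝ) / (2 * N), fun i => (z (m + i) : ℝ) / (2 * N))

theorem pnt_mem {N : ℕ} (hN : 0 < N) {z : Cell} (hz : Dom N m n z) : pnt m n N z ∈ Del m n := by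
  have hN' : (0 : ℝ) < 2 * N := by positivity
  have habs : ∀ i, |(z i : ℝ) / (2 * N)| ≤ 1 := by
    intro i
    obtain ⟨h1, h2⟩ := hz.1 i
    rw [abs_le]
    constructor
    · rw [le_div_iff₀ hN']
      have : (-(2 * (N : ℤ)) : ℝ) ≤ z i := by exact_mod_cast h1
      push_cast at this; linarith
    · rw [div_le_iff₀ hN']
      have : (z i : ℝ) ≤ 2 * N := by exact_mod_cast h2
      linarith
  refine ⟨fun i => habs i, ?_⟩
  apply le_antisymm
  · rw [pi_norm_le_iff_of_nonneg zero_le_one]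
    intro i; rw [Real.norm_eq_abs]; exact habs _
  · obtain ⟨_, ⟨i, hi1, hi2, hi3⟩, _⟩ := hz
    have := norm_le_pi_norm (pnt m n N z).2 ⟨i - m, by omega⟩
    refine le_trans ?_ this
    have e : (pnt m n N z).2 ⟨i - m, by omega⟩ = (z i : ℝ) / (2 * N) := by
      simp only [pnt]
      have : m + (i - m) = i := by omega
      rw [this]
    rw [e, Real.norm_eq_abs]
    rcases hi3 with h | h
    · rw [h]; push_cast; rw [div_self hN'.ne']; simp
    · rw [h]; push_cast; rw [neg_div, div_self hN'.ne']; simp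

theorem pnt_dist {N : ℕ} (hN : 0 < N) {y z : Cell} (h : Le y z) :
    dist (pnt m n N y) (pnt m n N z) ≤ 1 / (2 * N) := by
  have hN' : (0 : ℝ) < 2 * N := by positivity
  have key : ∀ i, dist ((y i : ℝ) / (2 * N)) ((z i : ℝ) / (2 * N)) ≤ 1 / (2 * N) := by
    intro i
    rw [Real.dist_eq, ← sub_div, abs_div, abs_of_pos hN']
    apply div_le_div_of_nonneg_right _ hN'.le
    have : |y i - z i| ≤ 1 := by
      rcases h i with h' | ⟨_, h' | h'⟩
      · rw [h']; simp
      · rw [h']; simp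
      · rw [h']; simp
    exact_mod_cast this
  rw [Prod.dist_eq]
  apply max_le
  · rw [dist_pi_le_iff (by positivity)]
    intro i; exact key _
  · rw [dist_pi_le_iff (by positivity)]
    intro i; exact key _

theorem exists_delta (A : (Fin m → ℝ) × (Fin (n + 1) → ℝ) → Fin m → ℝ)
    (B : (Fin m → ℝ) × (Fin (n + 1) → ℝ) → Fin n → ℝ)
    (hF : ContinuousOn (Fv A B) (Del m n)) (hA : ContinuousOn A (Del m n))
    (hpos : ∀ x ∈ Del m n, ∀ i, x.1 i = 1 → 0 < A x i)
    (hneg : ∀ x ∈ Del m n, ∀ i, x.1 i = -1 → A x i < 0)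
    (h0 : ∀ x ∈ Del m n, Fv A B x ≠ 0) :
    ∃ δ > 0, (∀ x ∈ Del m n, δ ≤ ‖Fv A B x‖) ∧
      (∀ x ∈ Del m n, ∀ i, x.1 i = 1 → δ ≤ A x i) ∧ (∀ x ∈ Del m n, ∀ i, x.1 i = -1 → A x i ≤ -δ) := by
  have hc := isCompact_Del m n
  have e1 : ∀ᶠ δ in 𝓝[>] (0 : ℝ), ∀ x ∈ Del m n, δ ≤ ‖Fv A B x‖ := by
    obtain ⟨a, ha, ha'⟩ := hc.exists_forall_le' (a := (0 : ℝ)) hF.norm (fun x hx => norm_pos_iff.2 (h0 x hx))
    filter_upwards [Ioo_mem_nhdsGT ha] with δ hδ x hx
    exact hδ.2.le.trans (ha' x hx)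
  have e2 : ∀ᶠ δ in 𝓝[>] (0 : ℝ), ∀ i, ∀ x ∈ Del m n, x.1 i = 1 → δ ≤ A x i := by
    rw [Filter.eventually_all]
    intro i
    have hcl : IsCompact (Del m n ∩ {x | x.1 i = 1}) := by
      apply hc.inter_right
      exact isClosed_eq ((continuous_apply i).comp continuous_fst) continuous_const
    have hcont : ContinuousOn (fun x => A x i) (Del m n ∩ {x | x.1 i = 1}) :=
      (continuousOn_pi.1 hA i).mono Set.inter_subset_left
    obtain ⟨a, ha, ha'⟩ := hcl.exists_forall_le' (a := (0 : ℝ)) hcont (fun x hx => hpos x hx.1 i hx.2)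
    filter_upwards [Ioo_mem_nhdsGT ha] with δ hδ x hx hx1
    exact hδ.2.le.trans (ha' x ⟨hx, hx1⟩)
  have e3 : ∀ᶠ δ in 𝓝[>] (0 : ℝ), ∀ i, ∀ x ∈ Del m n, x.1 i = -1 → A x i ≤ -δ := by
    rw [Filter.eventually_all]
    intro i
    have hcl : IsCompact (Del m n ∩ {x | x.1 i = -1}) := by
      apply hc.inter_right
      exact isClosed_eq ((continuous_apply i).comp continuous_fst) continuous_const
    have hcont : ContinuousOn (fun x => - A x i) (Del m n ∩ {x | x.1 i = -1}) :=
      ((continuousOn_pi.1 hA i).mono Set.inter_subset_left).neg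
    obtain ⟨a, ha, ha'⟩ := hcl.exists_forall_le' (a := (0 : ℝ)) hcont
      (fun x hx => by have := hneg x hx.1 i hx.2; linarith)
    filter_upwards [Ioo_mem_nhdsGT ha] with δ hδ x hx hx1
    have := ha' x ⟨hx, hx1⟩
    have := hδ.2
    linarith
  obtain ⟨δ, ⟨h1, h2, h3⟩, h4⟩ := ((e1.and (e2.and e3)).and self_mem_nhdsWithin).exists
  exact ⟨δ, h4, h1, fun x hx i => h2 i x hx, fun x hx i => h3 i x hx⟩

/-- the labelling -/
noncomputable def lab (A : (Fin m → ℝ) × (Fin (n + 1) → ℝ) → Fin m → ℝ)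
    (B : (Fin m → ℝ) × (Fin (n + 1) → ℝ) → Fin n → ℝ) (N : ℕ) (δ : ℝ) (z : Cell) : ℕ × Bool :=
  open Classical in
  if h : ∃ i, i < m ∧ (z i = 2 * N ∨ z i = -(2 * (N : ℤ))) then
    (Nat.find h, decide (z (Nat.find h) = 2 * N))
  else if h2 : ∃ j, j < m + n ∧ δ ≤ |cc A B j (pnt m n N z)| then
    (Nat.find h2, decide (0 < cc A B (Nat.find h2) (pnt m n N z)))
  else (0, true)

theorem pbu (hm : 0 < m) (A : (Fin m → ℝ) × (Fin (n + 1) → ℝ) → Fin m → ℝ)
    (B : (Fin m → ℝ) × (Fin (n + 1) → ℝ) → Fin n → ℝ)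
    (hA : ContinuousOn A (Del m n)) (hB : ContinuousOn B (Del m n))
    (hAe : ∀ x ∈ Del m n, A (x.1, -x.2) = A x) (hBo : ∀ x ∈ Del m n, B (x.1, -x.2) = -B x)
    (hpos : ∀ x ∈ Del m n, ∀ i, x.1 i = 1 → 0 < A x i)
    (hneg : ∀ x ∈ Del m n, ∀ i, x.1 i = -1 → A x i < 0) :
    ∃ x ∈ Del m n, A x = 0 ∧ B x = 0 := by
  classical
  by_contra hcon
  push Not at hcon
  have hFv : ∀ x ∈ Del m n, Fv A B x ≠ 0 := by
    intro x hx h
    refine hcon x hx ?_ ?_
    · funext i
      have := congrFun h (Fin.castAdd n i)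
      simpa [Fv] using this
    · funext i
      have := congrFun h (Fin.natAdd m i)
      simpa [Fv] using this
  have hFc : ContinuousOn (Fv A B) (Del m n) := by
    rw [continuousOn_pi]
    intro j
    refine Fin.addCases (fun i => ?_) (fun i => ?_) j
    · simpa [Fv] using continuousOn_pi.1 hA i
    · simpa [Fv] using continuousOn_pi.1 hB i
  obtain ⟨δ, hδ, hd1, hd2, hd3⟩ := exists_delta A B hFc hA hpos hneg hFv
  have huc := (isCompact_Del m n).uniformContinuousOn_of_continuous hFc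
  rw [Metric.uniformContinuousOn_iff] at huc
  obtain ⟨η, hη, hη'⟩ := huc δ hδ
  obtain ⟨N, hN⟩ := exists_nat_gt (1 / η)
  have hN0 : 0 < N := by
    rcases Nat.eq_zero_or_pos N with h | h
    · rw [h] at hN
      have : (0 : ℝ) < 1 / η := by positivity
      simp at hN; linarith [inv_pos.2 hη]
    · exact h
  have hN' : (0 : ℝ) < 2 * N := by positivity
  have hNη : 1 / (2 * (N : ℝ)) < η := by
    rw [div_lt_iff₀ hN']
    rw [div_lt_iff₀ hη] at hN
    nlinarith
  -- facts about cc
  have hcc : ∀ j (hj : j < m + n) x, cc A B j x = Fv A B x ⟨j, hj⟩ := by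
    intro j hj x; unfold cc; rw [dif_pos hj]
  have hccA : ∀ j (hj : j < m) x, cc A B j x = A x ⟨j, hj⟩ := by
    intro j hj x
    rw [hcc j (by omega)]
    have : (⟨j, by omega⟩ : Fin (m + n)) = Fin.castAdd n ⟨j, hj⟩ := rfl
    rw [this]; unfold Fv; rw [Fin.append_left]
  have hccB : ∀ j (hj : j < n) x, cc A B (m + j) x = B x ⟨j, hj⟩ := by
    intro j hj x
    rw [hcc (m + j) (by omega)]
    have : (⟨m + j, by omega⟩ : Fin (m + n)) = Fin.natAdd m ⟨j, hj⟩ := rfl
    rw [this]; unfold Fv; rw [Fin.append_right]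
  have hpu : ∀ (z : Cell) (i : ℕ) (hi : i < m), (pnt m n N z).1 ⟨i, hi⟩ = (z i : ℝ) / (2 * N) :=
    fun z i hi => rfl
  have hkey : ∀ x, Dom N m n x →
      ((lab A B N δ x).2 = true → δ ≤ cc A B (lab A B N δ x).1 (pnt m n N x)) ∧
      ((lab A B N δ x).2 = false → cc A B (lab A B N δ x).1 (pnt m n N x) ≤ -δ) := by
    intro x hx
    have hxm := pnt_mem hN0 hx
    unfold lab
    split_ifs with h h2
    · obtain ⟨hf1, hf2⟩ := Nat.find_spec h
      simp only [decide_eq_true_eq, decide_eq_false_iff_not]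
      constructor
      · intro he
        rw [hccA _ hf1]
        apply hd2 _ hxm
        rw [hpu x _ hf1, he]; push_cast; exact div_self hN'.ne'
      · intro he
        have he' := hf2.resolve_left he
        rw [hccA _ hf1]
        apply hd3 _ hxm
        rw [hpu x _ hf1, he']; push_cast; rw [neg_div, div_self hN'.ne']
    · obtain ⟨hf1, hf2⟩ := Nat.find_spec h2
      simp only [decide_eq_true_eq, decide_eq_false_iff_not]
      constructor
      · intro he; rwa [abs_of_pos he] at hf2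
      · intro he
        rw [abs_of_nonpos (not_lt.1 he)] at hf2; linarith
    · exfalso
      apply h2
      by_contra hcon2
      push Not at hcon2
      have h3 := hd1 _ hxm
      have : ‖Fv A B (pnt m n N x)‖ < δ := by
        rw [pi_norm_lt_iff hδ]
        intro j
        rw [Real.norm_eq_abs]
        have := hcon2 j.1 j.2
        rwa [hcc j.1 j.2] at this
      linarith
  refine no_labelling (N := N) (m := m) (n := n) hN0 hm (lab A B N δ) ⟨?_, ?_, ?_, ?_⟩
  · intro x hx
    unfold lab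
    split_ifs with h h2
    · have := (Nat.find_spec h).1
      simp only; omega
    · exact (Nat.find_spec h2).1
    · simp only; omega
  · intro x y hx hy hxy h1
    have hlt : (lab A B N δ x).1 < m + n := by
      unfold lab
      split_ifs with h h2
      · have := (Nat.find_spec h).1
        simp only; omega
      · exact (Nat.find_spec h2).1
      · simp only; omega
    have hkx := hkey x hx
    have hky := hkey y hy
    rw [← h1] at hky
    have hdist := hη' _ (pnt_mem hN0 hx) _ (pnt_mem hN0 hy) (lt_of_le_of_lt (pnt_dist hN0 hxy) hNη)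
    have hd := lt_of_le_of_lt (dist_le_pi_dist (Fv A B (pnt m n N x)) (Fv A B (pnt m n N y)) ⟨_, hlt⟩) hdist
    rw [← hcc _ hlt, ← hcc _ hlt, Real.dist_eq, abs_lt] at hd
    generalize (lab A B N δ x).1 = j at *
    cases hbx : (lab A B N δ x).2 <;> cases hby : (lab A B N δ y).2
    · rfl
    · exfalso
      have e1 := hkx.2 hbx
      have e2 := hky.1 hby
      linarith [hd.1]
    · exfalso
      have e1 := hkx.1 hbx
      have e2 := hky.2 hby
      linarith [hd.2]
    · rfl
  · intro x hx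
    have hxm := pnt_mem hN0 hx
    have hpn : pnt m n N (nuC m x) = ((pnt m n N x).1, -(pnt m n N x).2) := by
      unfold pnt
      ext i
      · simp only; rw [nuC_apply_lt i.2]
      · simp only [Pi.neg_apply]; rw [nuC_apply_ge (by omega)]; push_cast; ring
    have hcn : ∀ j, j < m + n → cc A B j (pnt m n N (nuC m x)) =
        if j < m then cc A B j (pnt m n N x) else - cc A B j (pnt m n N x) := by
      intro j hj
      rw [hpn]
      split_ifs with hjm
      · rw [hccA j hjm, hccA j hjm, hAe _ hxm]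
      · obtain ⟨j', rfl⟩ : ∃ j', j = m + j' := ⟨j - m, by omega⟩
        rw [hccB j' (by omega), hccB j' (by omega), hBo _ hxm]; rfl
    unfold lab
    by_cases h : ∃ i, i < m ∧ (x i = 2 * N ∨ x i = -(2 * (N : ℤ)))
    · have h' : ∃ i, i < m ∧ (nuC m x i = 2 * N ∨ nuC m x i = -(2 * (N : ℤ))) := by
        obtain ⟨i, hi, hi'⟩ := h
        exact ⟨i, hi, by rw [nuC_apply_lt hi]; exact hi'⟩
      rw [dif_pos h, dif_pos h']
      have e : Nat.find h' = Nat.find h := by
        apply Nat.find_congr'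
        intro i
        constructor
        · rintro ⟨h1, h2⟩; rw [nuC_apply_lt h1] at h2; exact ⟨h1, h2⟩
        · rintro ⟨h1, h2⟩; exact ⟨h1, by rw [nuC_apply_lt h1]; exact h2⟩
      have hf := (Nat.find_spec h).1
      rw [e, nuC_apply_lt hf]
      simp only [if_pos hf]
    · have h' : ¬ ∃ i, i < m ∧ (nuC m x i = 2 * N ∨ nuC m x i = -(2 * (N : ℤ))) := by
        rintro ⟨i, hi, hi'⟩
        rw [nuC_apply_lt hi] at hi'
        exact h ⟨i, hi, hi'⟩
      rw [dif_neg h, dif_neg h']
      have habs : ∀ j, j < m + n → |cc A B j (pnt m n N (nuC m x))| = |cc A B j (pnt m n N x)| := by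
        intro j hj; rw [hcn j hj]; split_ifs
        · rfl
        · rw [abs_neg]
      by_cases h2 : ∃ j, j < m + n ∧ δ ≤ |cc A B j (pnt m n N x)|
      · have h2' : ∃ j, j < m + n ∧ δ ≤ |cc A B j (pnt m n N (nuC m x))| := by
          obtain ⟨j, hj, hj'⟩ := h2
          exact ⟨j, hj, by rw [habs j hj]; exact hj'⟩
        rw [dif_pos h2, dif_pos h2']
        have e : Nat.find h2' = Nat.find h2 := by
          apply Nat.find_congr'
          intro j
          constructor
          · rintro ⟨h3, h4⟩; rw [habs j h3] at h4; exact ⟨h3, h4⟩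
          · rintro ⟨h3, h4⟩; exact ⟨h3, by rw [habs j h3]; exact h4⟩
        obtain ⟨hf1, hf2⟩ := Nat.find_spec h2
        rw [e, hcn _ hf1]
        simp only
        congr 1
        split_ifs with hjm
        · rfl
        · have hne : cc A B (Nat.find h2) (pnt m n N x) ≠ 0 := by
            intro h0; rw [h0, abs_zero] at hf2; linarith
          rcases lt_or_gt_of_ne hne with hlt | hgt
          · have : ¬ (0 < cc A B (Nat.find h2) (pnt m n N x)) := not_lt.2 hlt.le
            simp [this, hlt]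
          · have : ¬ (cc A B (Nat.find h2) (pnt m n N x) < 0) := not_lt.2 hgt.le
            simp [this, hgt]
      · exfalso
        apply h2
        by_contra hcon2
        push Not at hcon2
        have h3 := hd1 _ hxm
        have : ‖Fv A B (pnt m n N x)‖ < δ := by
          rw [pi_norm_lt_iff hδ]
          intro j
          rw [Real.norm_eq_abs]
          have := hcon2 j.1 j.2
          rwa [hcc j.1 j.2] at this
        linarith
  · intro x hx i hi hb hmin
    unfold lab
    have h : ∃ i, i < m ∧ (x i = 2 * N ∨ x i = -(2 * (N : ℤ))) := ⟨i, hi, hb⟩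
    rw [dif_pos h]
    have e : Nat.find h = i := by
      rw [Nat.find_eq_iff]
      refine ⟨⟨hi, hb⟩, fun j hj hcon2 => ?_⟩
      have := hmin j hj
      rcases hcon2.2 with h' | h'
      · exact this.1 h'
      · exact this.2 h'
    rw [e]

end KZB
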